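import Pool.Agent.TH777.LD.Glob

set_option autoImplicit false

/-!
# The global inequality with exponents
-/

namespace Pool.Agent.TH777.LE

open Height Height.AdmissibleAbsValues Real Finset

open Pool.Agent.TH777.LD (pf ht exT arch_log floor_sum' lam lam_nonneg good sum_ht arch_lam_nonneg)

variable {K : Type} [Field K] [NumberField K]

/-- the product of the maxima -/
noncomputable def mx {N : ℕ} (Q n : ℕ) (y : Fin N → ℕ → K) (v : AbsoluteValue K ℝ) (j : Fin N) : ℝ :=
  ∏ k ∈ range n, (max 1 (v (y j k))) ^ Q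

omit [NumberField K] in
theorem one_le_mx {N : ℕ} (Q n : ℕ) (y : Fin N → ℕ → K) (v : AbsoluteValue K ℝ) (j : Fin N) :
    1 ≤ mx Q n y v j := by
  rw [mx]
  calc (1 : ℝ) = ∏ _k ∈ range n, (1 : ℝ) := by rw [prod_const_one]
    _ ≤ _ := prod_le_prod (fun _ _ => zero_le_one) fun k _ => one_le_pow₀ (le_max_left _ _)

omit [NumberField K] in
theorem log_mx {N : ℕ} (Q n : ℕ) (y : Fin N → ℕ → K) (v : AbsoluteValue K ℝ) :
    Real.log (∏ j, mx Q n y v j) = Q * lam n y v := by
  rw [Real.log_prod fun j _ => by linarith [one_le_mx Q n y v j], lam, mul_sum]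
  refine sum_congr rfl fun j _ => ?_
  have h1 : ∀ k ∈ range n, (max 1 (v (y j k))) ^ Q ≠ 0 := by
    intro k _
    have : (0 : ℝ) < max 1 (v (y j k)) := lt_of_lt_of_le one_pos (le_max_left _ _)
    positivity
  rw [mx, Real.log_prod h1, mul_sum]
  refine sum_congr rfl fun k _ => ?_
  rw [Real.log_pow, posLog_eq_log_max_one (v.nonneg _)]

/-- the bound at one nonarchimedean place -/
theorem local_bound {N n m Q r : ℕ} {M : Matrix (Fin N) (Fin N) K} (hdet : M.det ≠ 0)
    {y z : Fin N → ℕ → K} {s : ℕ} (hs1 : 1 ≤ s) {v : AbsoluteValue K ℝ} (hv : IsNonarchimedean v)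
    {PP : Finset ℕ} (hPP : ∀ p ∈ PP, p.Prime)
    (hna : v M.det ≤ ∏ j, mx Q n y v j)
    (hloc : ∀ p ∈ PP, v (p : K) < 1 → v M.det ≤
      (∏ j, mx Q n y v j) * v (p : K) ^ (∑ l ∈ range (good m z v).card, l / s))
    (hram : ∀ p ∈ PP, v (p : K) < 1 → ∀ j, ∀ k < m, 1 < v (z j k) →
      -Real.log (v (p : K)) ≤ r * Real.log (v (z j k))) :
    Real.log (v M.det) ≤ Q * lam n y v + N * r / s * lam m z v -
      (∑ p ∈ PP, (-Real.log (v (p : K)))) * ((N : ℝ) ^ 2 / (2 * s) - 3 / 2 * N) := by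
  classical
  have hdet0 : 0 < v M.det := v.pos hdet
  have hmx0 : ∀ j, 0 < mx Q n y v j := fun j => by linarith [one_le_mx Q n y v j]
  have hlam := lam_nonneg m z v
  have hle1 : ∀ p : ℕ, v (p : K) ≤ 1 := by
    intro p
    exact IsNonarchimedean.apply_natCast_le_one hv
  by_cases hcase : ∃ p ∈ PP, v (p : K) < 1
  · obtain ⟨p, hp, hvp⟩ := hcase
    have hpp := hPP p hp
    have hother : ∀ p' ∈ PP, p' ≠ p → v (p' : K) = 1 := by
      intro p' hp' hne
      refine le_antisymm (hle1 p') ?_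
      by_contra hlt
      push Not at hlt
      have hcop : IsCoprime (p : ℤ) (p' : ℤ) := by
        rw [Nat.isCoprime_iff_coprime]
        exact (Nat.coprime_primes hpp (hPP p' hp')).2 (Ne.symm hne)
      obtain ⟨a, b, hab⟩ := hcop
      have hint : ∀ n : ℤ, v (n : K) ≤ 1 := fun n => IsNonarchimedean.apply_intCast_le_one hv
      have h2 : v ((a * p + b * p' : ℤ) : K) < 1 := by
        push_cast
        refine (hv _ _).trans_lt (max_lt ?_ ?_)
        · rw [map_mul]
          calc v (a : K) * v (p : K) ≤ 1 * v (p : K) :=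
                mul_le_mul_of_nonneg_right (hint a) (v.nonneg _)
            _ < 1 := by rw [one_mul]; exact hvp
        · rw [map_mul]
          calc v (b : K) * v (p' : K) ≤ 1 * v (p' : K) :=
                mul_le_mul_of_nonneg_right (hint b) (v.nonneg _)
            _ < 1 := by rw [one_mul]; exact hlt
      rw [hab, Int.cast_one, map_one] at h2
      exact lt_irrefl _ h2
    have hsum : ∑ p ∈ PP, (-Real.log (v (p : K))) = -Real.log (v (p : K)) := by
      refine sum_eq_single p ?_ fun h => absurd hp h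
      intro p' hp' hne
      rw [hother p' hp' hne, Real.log_one, neg_zero]
    rw [hsum]
    have hp0 : 0 < v (p : K) := v.pos (by exact_mod_cast hpp.ne_zero)
    obtain ⟨ℓ, hℓ⟩ : ∃ ℓ, ℓ = -Real.log (v (p : K)) := ⟨_, rfl⟩
    have hℓ0 : 0 < ℓ := by
      rw [hℓ]
      have := Real.log_neg hp0 hvp
      linarith
    have hs1' : (0 : ℝ) < s := by exact_mod_cast hs1
    obtain ⟨W, hW⟩ : ∃ W : ℕ, W = ∑ l ∈ range (good m z v).card, l / s := ⟨_, rfl⟩
    obtain ⟨b, hb⟩ : ∃ b : ℕ, b = (univ.filter fun j => j ∉ good m z v).card := ⟨_, rfl⟩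
    have hnb : (good m z v).card + b = N := by
      have h1 : (good m z v).card = (univ.filter fun j => j ∈ good m z v).card := by
        congr 1
        ext j
        simp
      rw [hb, h1, card_filter_add_card_filter_not, card_univ, Fintype.card_fin]
    have h1 := hloc p hp hvp
    rw [← hW] at h1
    have h2 := Real.log_le_log hdet0 h1
    rw [Real.log_mul (prod_ne_zero_iff.2 fun j _ => (hmx0 j).ne') (by positivity), log_mx,
      Real.log_pow] at h2
    have h3 := floor_sum' s hs1 N (good m z v).card b hnb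
    rw [← hW] at h3
    -- bad points
    have h4 : (b : ℝ) * ℓ ≤ r * lam m z v := by
      rw [lam, mul_sum]
      calc (b : ℝ) * ℓ = ∑ _j ∈ univ.filter (fun j => j ∉ good m z v), ℓ := by
            rw [sum_const, nsmul_eq_mul, hb]
        _ ≤ ∑ j ∈ univ.filter (fun j => j ∉ good m z v),
              (r : ℝ) * ∑ k ∈ range m, log⁺ (v (z j k)) := by
            refine sum_le_sum fun j hj => ?_
            have hj' := (mem_filter.1 hj).2
            rw [good, mem_filter] at hj'
            push Not at hj'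
            obtain ⟨k, hk, hvk⟩ := hj' (mem_univ _)
            have h5 := hram p hp hvp j k hk hvk
            rw [← hℓ] at h5
            have h6 : log⁺ (v (z j k)) ≤ ∑ k ∈ range m, log⁺ (v (z j k)) :=
              single_le_sum (f := fun k => log⁺ (v (z j k))) (fun _ _ => posLog_nonneg)
                (mem_range.2 hk)
            rw [posLog_eq_log (by rw [abs_of_nonneg (v.nonneg _)]; exact hvk.le)] at h6
            exact h5.trans (mul_le_mul_of_nonneg_left h6 (Nat.cast_nonneg _))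
        _ ≤ ∑ j, (r : ℝ) * ∑ k ∈ range m, log⁺ (v (z j k)) :=
            sum_le_sum_of_subset_of_nonneg (filter_subset _ _) fun j _ _ =>
              mul_nonneg (Nat.cast_nonneg _) (sum_nonneg fun _ _ => posLog_nonneg)
    rw [← hℓ]
    have h7 : (W : ℝ) * Real.log (v (p : K)) = -(ℓ * W) := by
      rw [hℓ]
      ring
    rw [h7] at h2
    have h8 : ℓ * ((N : ℝ) ^ 2 / (2 * s) - N * (b / s) - 3 / 2 * N) ≤ ℓ * W :=
      mul_le_mul_of_nonneg_left h3 hℓ0.le
    have h9 : ℓ * (N * (b / s)) ≤ N * r / s * lam m z v := by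
      have e1 : ℓ * ((N : ℝ) * (b / s)) = (N / s) * (b * ℓ) := by
        field_simp
      have e2 : (N : ℝ) * r / s * lam m z v = (N / s) * (r * lam m z v) := by
        field_simp
      rw [e1, e2]
      exact mul_le_mul_of_nonneg_left h4 (by positivity)
    have h10 : ℓ * ((N : ℝ) ^ 2 / (2 * s) - N * (b / s) - 3 / 2 * N) =
        ℓ * ((N : ℝ) ^ 2 / (2 * s) - 3 / 2 * N) - ℓ * (N * (b / s)) := by ring
    rw [h10] at h8
    linarith
  · push Not at hcase
    have hsum : ∑ p ∈ PP, (-Real.log (v (p : K))) = 0 := by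
      refine sum_eq_zero fun p hp => ?_
      rw [le_antisymm (hle1 p) (hcase p hp), Real.log_one, neg_zero]
    rw [hsum, zero_mul, sub_zero]
    have h2 := Real.log_le_log hdet0 hna
    rw [log_mx] at h2
    have h3 : 0 ≤ (N : ℝ) * r / s * lam m z v := mul_nonneg (by positivity) hlam
    linarith

/-- the global inequality -/
theorem global {N n m Q r : ℕ} {M : Matrix (Fin N) (Fin N) K} (hdet : M.det ≠ 0)
    {y z : Fin N → ℕ → K} {s : ℕ} (hs1 : 1 ≤ s) {PP : Finset ℕ} (hPP : ∀ p ∈ PP, p.Prime)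
    (harch : ∀ v ∈ archAbsVal (K := K), v M.det ≤ N.factorial * ∏ j, mx Q n y v j)
    (hna : ∀ v ∈ nonarchAbsVal (K := K), v M.det ≤ ∏ j, mx Q n y v j)
    (hloc : ∀ v ∈ nonarchAbsVal (K := K), ∀ p ∈ PP, v (p : K) < 1 → v M.det ≤
      (∏ j, mx Q n y v j) * v (p : K) ^ (∑ l ∈ range (good m z v).card, l / s))
    (hram : ∀ v ∈ nonarchAbsVal (K := K), ∀ p ∈ PP, v (p : K) < 1 → ∀ j, ∀ k < m,
      1 < v (z j k) → -Real.log (v (p : K)) ≤ r * Real.log (v (z j k))) :
    (Module.finrank ℚ K : ℝ) * ((∑ p ∈ PP, Real.log p) * ((N : ℝ) ^ 2 / (2 * s) - 3 / 2 * N)) ≤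
      Module.finrank ℚ K * Real.log N.factorial +
        Q * (∑ j, ∑ k ∈ range n, logHeight₁ (y j k)) +
        N * r / s * ∑ j, ∑ k ∈ range m, logHeight₁ (z j k) := by
  classical
  obtain ⟨T, hT⟩ := exT (K := K) ({M.det} ∪ (univ.biUnion fun j : Fin N =>
    (range n).image (y j)) ∪ (univ.biUnion fun j : Fin N =>
    (range m).image (z j)) ∪ PP.image fun p : ℕ => (p : K))
  have hTdet : ∀ v, v ∉ T → v.val M.det = 1 := hT M.det (by simp) hdet
  have hTy : ∀ j, ∀ k ∈ range n, y j k ≠ 0 → ∀ v, v ∉ T → v.val (y j k) = 1 := by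
    intro j k hk
    refine hT (y j k) ?_
    refine mem_union_left _ (mem_union_left _ (mem_union_right _ ?_))
    exact mem_biUnion.2 ⟨j, mem_univ _, mem_image.2 ⟨k, hk, rfl⟩⟩
  have hTz : ∀ j, ∀ k ∈ range m, z j k ≠ 0 → ∀ v, v ∉ T → v.val (z j k) = 1 := by
    intro j k hk
    refine hT (z j k) ?_
    refine mem_union_left _ (mem_union_right _ ?_)
    exact mem_biUnion.2 ⟨j, mem_univ _, mem_image.2 ⟨k, hk, rfl⟩⟩
  have hTp : ∀ p ∈ PP, ∀ v, v ∉ T → v.val (p : K) = 1 := by
    intro p hp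
    refine hT (p : K) (mem_union_right _ (mem_image.2 ⟨p, hp, rfl⟩)) ?_
    exact_mod_cast (hPP p hp).ne_zero
  obtain ⟨κ, hκ⟩ : ∃ κ : ℝ, κ = N * r / s := ⟨_, rfl⟩
  have hκ0 : 0 ≤ κ := by
    rw [hκ]
    positivity
  obtain ⟨e, he⟩ : ∃ e : ℝ, e = (N : ℝ) ^ 2 / (2 * s) - 3 / 2 * N := ⟨_, rfl⟩
  -- archimedean part
  have hA : ((archAbsVal (K := K)).map fun v => Real.log (v M.det)).sum ≤
      Module.finrank ℚ K * Real.log N.factorial +
        Q * ((archAbsVal (K := K)).map fun v => lam n y v).sum := by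
    have h1 : ((archAbsVal (K := K)).map fun v => Real.log (v M.det)).sum ≤
        ((archAbsVal (K := K)).map fun v => Real.log N.factorial + Q * lam n y v).sum := by
      refine Multiset.sum_map_le_sum_map _ _ fun v hv => ?_
      have h2 := Real.log_le_log (v.pos hdet) (harch v hv)
      have h3 : (0 : ℝ) < N.factorial := by exact_mod_cast N.factorial_pos
      have h4 : ∏ j, mx Q n y v j ≠ 0 := prod_ne_zero_iff.2 fun j _ => by
        linarith [one_le_mx Q n y v j]
      rwa [Real.log_mul h3.ne' h4, log_mx] at h2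
    refine h1.trans (le_of_eq ?_)
    rw [Multiset.sum_map_add, Multiset.sum_map_mul_left, Multiset.map_const', Multiset.sum_replicate,
      nsmul_eq_mul]
    have h5 : (archAbsVal (K := K)).card = Module.finrank ℚ K :=
      NumberField.totalWeight_eq_finrank K
    rw [h5]
  -- nonarchimedean part
  have hB : ∑ v ∈ T, Real.log (v.val M.det) ≤ Q * ∑ v ∈ T, lam n y v.val +
      κ * ∑ v ∈ T, lam m z v.val -
      (∑ p ∈ PP, ∑ v ∈ T, -Real.log (v.val (p : K))) * e := by
    have h1 : ∀ v ∈ T, Real.log (v.val M.det) ≤ Q * lam n y v.val + κ * lam m z v.val -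
        (∑ p ∈ PP, (-Real.log (v.val (p : K)))) * e := by
      intro v _
      rw [hκ, he]
      exact local_bound hdet hs1 (isNonarchimedean v.val v.2) hPP (hna v.val v.2)
        (hloc v.val v.2) (hram v.val v.2)
    refine (sum_le_sum h1).trans (le_of_eq ?_)
    rw [sum_sub_distrib, sum_add_distrib, mul_sum, mul_sum, ← sum_mul, sum_comm]
  have hPF := pf hdet T hTdet
  -- primes
  have hP : ∀ p ∈ PP, ∑ v ∈ T, -Real.log (v.val (p : K)) = Module.finrank ℚ K * Real.log p := by
    intro p hp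
    have h1 := pf (K := K) (x := (p : K)) (by exact_mod_cast (hPP p hp).ne_zero) T (hTp p hp)
    rw [arch_log] at h1
    rw [sum_neg_distrib]
    linarith
  rw [sum_congr rfl hP, ← mul_sum] at hB
  have h6 : 0 ≤ κ * ((archAbsVal (K := K)).map fun v => lam m z v).sum :=
    mul_nonneg hκ0 (arch_lam_nonneg z)
  rw [sum_ht y T hTy, sum_ht z T hTz, ← hκ, ← he, mul_add, mul_add]
  have h7 : (Module.finrank ℚ K : ℝ) * ((∑ p ∈ PP, Real.log (p : ℝ)) * e) =
      Module.finrank ℚ K * (∑ p ∈ PP, Real.log (p : ℝ)) * e := by ring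
  rw [h7]
  linarith

end Pool.Agent.TH777.LE
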