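import Pool.Agent.TH777.LE.Fam
import Pool.Agent.TH777.LE.Sel
import Pool.Agent.TH777.LE.Glob
import Pool.Agent.TH777.LD.Ineq

set_option autoImplicit false

/-!
# The inequality for programs with divisions
-/

namespace Pool.Agent.TH777.LE

open Polynomial Height Height.AdmissibleAbsValues

open Pool.Agent.TH777.LC (Instr Step)

open Pool.Agent.TH777.LD (OO mem_OO good det_le_any det_le_row det_local int_eq om_small)

/-- programs over the rational numbers are programs over `K` -/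
theorem base {K : Type} [Field K] [Algebra ℚ K] {L : ℕ} {P : ℕ → Instr} {g : ℕ → RatFunc ℚ}
    (hg : ∀ k ≤ L, Step (fun a => RatFunc.C a) RatFunc.X g k (P k)) (hgL : g L ≠ 0) :
    ∃ g' : ℕ → RatFunc K,
      (∀ k ≤ L, Step (fun a => RatFunc.C (algebraMap ℚ K a)) RatFunc.X g' k (P k)) ∧ g' L ≠ 0 := by
  obtain ⟨φ, hφ⟩ : ∃ φ : ℚ[X] →+* RatFunc K,
    φ = (algebraMap K[X] (RatFunc K)).comp (Polynomial.mapRingHom (algebraMap ℚ K)) := ⟨_, rfl⟩
  have hinj : Function.Injective φ := by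
    rw [hφ]
    exact (RatFunc.algebraMap_injective K).comp (Polynomial.map_injective _ (algebraMap ℚ K).injective)
  obtain ⟨Φ, hΦ⟩ : ∃ Φ : RatFunc ℚ →+* RatFunc K, ∀ p : ℚ[X], Φ (algebraMap ℚ[X] _ p) = φ p :=
    ⟨RatFunc.liftRingHom φ (nonZeroDivisors_le_comap_nonZeroDivisors_of_injective _ hinj),
      fun p => RatFunc.liftRingHom_algebraMap φ _ p⟩
  have hC : ∀ a : ℚ, Φ (RatFunc.C a) = RatFunc.C (algebraMap ℚ K a) := by
    intro a
    rw [← RatFunc.algebraMap_C, hΦ, hφ, RingHom.comp_apply, Polynomial.coe_mapRingHom,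
      Polynomial.map_C, RatFunc.algebraMap_C]
  have hX : Φ RatFunc.X = RatFunc.X := by
    rw [← RatFunc.algebraMap_X, hΦ, hφ, RingHom.comp_apply, Polynomial.coe_mapRingHom,
      Polynomial.map_X, RatFunc.algebraMap_X]
  refine ⟨fun k => Φ (g k), fun k hk => ?_, fun h0 => ?_⟩
  · have h1 := hg k hk
    cases hP : P k with
    | var =>
      rw [hP] at h1
      simp only [Step] at h1 ⊢
      rw [h1, hX]
    | const a =>
      rw [hP] at h1
      simp only [Step] at h1 ⊢
      rw [h1, hC]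
    | add i j =>
      rw [hP] at h1
      obtain ⟨hi, hj, h1⟩ := h1
      exact ⟨hi, hj, by show Φ (g k) = Φ (g i) + Φ (g j); rw [h1, map_add]⟩
    | sub i j =>
      rw [hP] at h1
      obtain ⟨hi, hj, h1⟩ := h1
      exact ⟨hi, hj, by show Φ (g k) = Φ (g i) - Φ (g j); rw [h1, map_sub]⟩
    | mul i j =>
      rw [hP] at h1
      obtain ⟨hi, hj, h1⟩ := h1
      exact ⟨hi, hj, by show Φ (g k) = Φ (g i) * Φ (g j); rw [h1, map_mul]⟩
    | div i j =>
      rw [hP] at h1
      obtain ⟨hi, hj, h2, h1⟩ := h1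
      exact ⟨hi, hj, (map_ne_zero Φ).2 h2, by show Φ (g k) = Φ (g i) / Φ (g j); rw [h1, map_div₀]⟩
  · exact hgL ((map_eq_zero Φ).1 h0)

/-- the entries -/
theorem entry_le {K : Type} [Field K] {n L Q : ℕ} (v : AbsoluteValue K ℝ) (y y' : Fin n → ℕ → K)
    {a : ℕ → ℕ} (ha : ∀ k, a k ≤ Q) (j : Fin n) (hy : ∀ k, a k ≠ 0 → y' j k = y j k) :
    v (∏ k ∈ Finset.range (L + 1), (y j k) ^ (a k)) ≤ mx Q (L + 1) y' v j := by
  rw [map_prod, mx]
  refine Finset.prod_le_prod (fun _ _ => v.nonneg _) fun k _ => ?_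
  rw [map_pow]
  rcases eq_or_ne (a k) 0 with h0 | h0
  · rw [h0, pow_zero]
    exact one_le_pow₀ (le_max_left _ _)
  rw [hy k h0]
  calc v (y j k) ^ (a k) ≤ (max 1 (v (y j k))) ^ (a k) :=
        pow_le_pow_left₀ (v.nonneg _) (le_max_right _ _) _
    _ ≤ _ := pow_le_pow_right₀ (le_max_left _ _) (ha k)

theorem core {K : Type} [Field K] [NumberField K] {L : ℕ} {P : ℕ → Instr} {g : ℕ → RatFunc K}
    (hg : ∀ k ≤ L, Step (fun a => RatFunc.C (algebraMap ℚ K a)) RatFunc.X g k (P k))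
    (hgL : g L ≠ 0) {S : Finset K} (hcard : 1 ≤ S.card) {w : K → ℕ → K} {d q : ℕ} (hd : 1 ≤ d)
    (hq : 2 ≤ q) (hdeg : ∀ x ∈ S, (minpoly ℚ x).natDegree ≤ d)
    (hw : ∀ x ∈ S, ∀ k ≤ L, Step (algebraMap ℚ K) x (w x) k (P k)) (hwL : ∀ x ∈ S, w x L = 0)
    {B : ℝ} (hB : ∀ x ∈ S, ∀ G : Finset ℕ, G.card ≤ Nat.log q S.card + 1 → (∀ k ∈ G, k ≤ L) →
      ∑ k ∈ G, logHeight₁ (w x k) ≤ Module.finrank ℚ K * B) {m r : ℕ} {z : K → ℕ → K} {A : ℝ}
    (hz1 : ∀ x ∈ S, ∀ v ∈ nonarchAbsVal (K := K), (∀ k < m, v (z x k) ≤ 1) →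
      (∀ k ≤ L, v (w x k) ≤ 1) ∧ ∀ k ≤ L, ∀ i i', P k = Instr.div i i' → v (w x i')⁻¹ ≤ 1)
    (hz2 : ∀ x ∈ S, ∀ v ∈ nonarchAbsVal (K := K), ∀ p : ℕ, p.Prime → v (p : K) < 1 →
      ∀ k < m, 1 < v (z x k) → -Real.log (v (p : K)) ≤ r * Real.log (v (z x k)))
    (hz3 : ∀ x ∈ S, ∑ k ∈ Finset.range m, logHeight₁ (z x k) ≤ Module.finrank ℚ K * A)
    {PP : Finset ℕ} (hPP : ∀ p ∈ PP, p.Prime) {s : ℕ} (hs1 : 1 ≤ s)
    (hs : ∀ p ∈ PP, d * p ^ d ≤ s) :
    ∃ n : ℕ, 1 ≤ n ∧ (∑ p ∈ PP, Real.log p) * ((n : ℝ) ^ 2 / (2 * s) - 3 / 2 * n) ≤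
      Real.log n.factorial + 4 * q * (n * B) + n * r / s * (n * A) ∧
      S.card * q ^ (Nat.log q S.card) ≤ n * (q + 1) ^ (Nat.log q S.card) := by
  classical
  have hL : ¬ Bd (S.card - 1) (g L) := by
    intro h
    have h1 := zeros h hgL S (by
      intro x hx
      have h3 := val_prog hg (hw x hx) L le_rfl
      rwa [hwL x hx] at h3)
    omega
  obtain ⟨κ, hκ, a, G, f1, f2, _, f4, f5, f6, f7, _, f9⟩ := fam hg hq S.card hcard hL
  obtain ⟨n, hn⟩ : ∃ n, n = Fintype.card κ := ⟨_, rfl⟩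
  rw [← hn] at f1
  have hn1 : 1 ≤ n := by
    rcases Nat.eq_zero_or_pos n with h0 | h0
    · rw [h0, zero_mul] at f1
      have h1 : 0 < S.card * q ^ (Nat.log q S.card) := by positivity
      omega
    · exact h0
  refine ⟨n, hn1, ?_, f1⟩
  let e : Fin n ≃ κ := (Fintype.equivFinOfCardEq hn.symm).symm
  have hI : Indep fun m : Fin n => mono L g (a (e m)) := by
    intro c hc m
    have h1 := f4 (fun i => c (e.symm i)) (by
      rw [← hc, ← Equiv.sum_comp e]
      refine Finset.sum_congr rfl fun i _ => ?_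
      rw [Equiv.symm_apply_apply]) (e m)
    rwa [Equiv.symm_apply_apply] at h1
  have hC : CD (S.card - 1) fun m : Fin n => mono L g (a (e m)) := by
    obtain ⟨Δ, h0, h1⟩ := f5
    exact ⟨Δ, h0, fun m => h1 (e m)⟩
  obtain ⟨x, hx, hdet⟩ := select (fun m : Fin n => mono L g (a (e m))) hI hC S (by omega)
    (fun y m => ∏ k ∈ Finset.range (L + 1), (w y k) ^ (a (e m) k)) (by
      intro y hy m
      have h3 := val_prog hg (hw y hy)
      exact Val.prod _ _ _ fun i hi => (h3 i (by omega)).pow _)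
  obtain ⟨M, hM⟩ : ∃ M : Matrix (Fin n) (Fin n) K, M = Matrix.of fun j m =>
    ∏ k ∈ Finset.range (L + 1), (w (x j) k) ^ (a (e m) k) := ⟨_, rfl⟩
  rw [← hM] at hdet
  obtain ⟨kv, hkv, hPv⟩ : ∃ k ≤ L, P k = Instr.var :=
    exists_var hg fun h => hL (h.mono (Nat.zero_le _))
  obtain ⟨y, hyd⟩ : ∃ y : Fin n → ℕ → K, y = fun j k => if k ∈ G then w (x j) k else 0 := ⟨_, rfl⟩
  have hMe : ∀ v : AbsoluteValue K ℝ, ∀ j m, v (M j m) ≤ mx (4 * q) (L + 1) y v j := by
    intro v j m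
    rw [hM, Matrix.of_apply]
    refine entry_le v (fun j => w (x j)) y (f2 (e m)) j fun k hk => ?_
    rw [hyd]
    exact if_pos (f6 _ _ hk)
  have hglob := global (y := y) (z := fun j => z (x j)) (m := m) (r := r) hdet hs1 hPP
    (fun v _ => det_le_any v M _ (hMe v))
    (fun v hv => det_le_row (isNonarchimedean v hv) M _ (hMe v))
    (fun v hv p hpPP hvp => by
      have hna := isNonarchimedean v hv
      have hp := hPP p hpPP
      obtain ⟨J, hJ⟩ : ∃ J, J = good m (fun j => z (x j)) v := ⟨_, rfl⟩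
      rw [← hJ]
      have hgood : ∀ j : {j // j ∈ J}, (∀ k ≤ L, v (w (x j) k) ≤ 1) ∧
          ∀ k ≤ L, ∀ i i', P k = Instr.div i i' → v (w (x j) i')⁻¹ ≤ 1 := by
        intro j
        have h1 : (j : Fin n) ∈ good m (fun j => z (x j)) v := by
          rw [← hJ]
          exact j.2
        rw [good, Finset.mem_filter] at h1
        exact hz1 _ (hx j) v hv h1.2
      have hxle : ∀ j : {j // j ∈ J}, v (x j) ≤ 1 := by
        intro j
        have h1 := hw _ (hx j) kv hkv
        rw [hPv] at h1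
        simp only [Step] at h1
        have h2 := (hgood j).1 kv hkv
        rwa [h1] at h2
      obtain ⟨ξ, hξ⟩ : ∃ ξ : {j // j ∈ J} → OO v hna, ∀ j, ((ξ j : OO v hna) : K) = x j :=
        ⟨fun j => ⟨x j, hxle j⟩, fun _ => rfl⟩
      have hrep := rep hna (J := {j // j ∈ J}) (fun j => x j) (fun j => w (x j))
        (fun j => hw _ (hx j)) (fun j => (hgood j).1) (fun j => (hgood j).2) ξ hξ
      have hrep' : ∀ i, ∃ H : (OO v hna)[X], i ≤ L →
          ∀ j, ((H.eval (ξ j) : OO v hna) : K) = w (x (j : Fin n)) i := by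
        intro i
        by_cases hi : i ≤ L
        · obtain ⟨H, hH⟩ := hrep i hi
          exact ⟨H, fun _ => hH⟩
        · exact ⟨0, fun h => absurd h hi⟩
      choose H hH using hrep'
      have hdl := det_local hna M J _ (fun j => one_le_mx (4 * q) (L + 1) _ v j) (hMe v)
        ξ (fun m => ∏ k ∈ Finset.range (L + 1), (H k) ^ (a (e m) k)) (fun j m => by
          rw [hM, Matrix.of_apply, eval_prod]
          have h1 : ((∏ k ∈ Finset.range (L + 1), eval (ξ j) (H k ^ a (e m) k) : OO v hna) : K) =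
              ∏ k ∈ Finset.range (L + 1), ((eval (ξ j) (H k ^ a (e m) k) : OO v hna) : K) :=
            map_prod (OO v hna).subtype _ _
          rw [h1]
          refine Finset.prod_congr rfl fun k hk => ?_
          rw [eval_pow, Subring.coe_pow, hH k (by have := Finset.mem_range.1 hk; omega)]) hp hd
        fun j => by
          obtain ⟨h, h0, h1, h2⟩ := int_eq (hdeg _ (hx j)) X
          rw [aeval_X] at h2
          rw [hξ]
          exact om_small hna hp (hxle j) h0 h1 h2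
      refine hdl.trans (mul_le_mul_of_nonneg_left ?_ (Finset.prod_nonneg fun j _ => by
        linarith [one_le_mx (4 * q) (L + 1) y v j]))
      refine pow_le_pow_of_le_one (v.nonneg _) hvp.le (Finset.sum_le_sum fun l _ => ?_)
      exact Nat.div_le_div_left (hs p hpPP) (Nat.mul_pos hd (pow_pos hp.pos _)))
    (fun v hv p hpPP hvp j k hk h1 => hz2 _ (hx j) v hv p (hPP p hpPP) hvp k hk h1)
  have hy : ∑ j : Fin n, ∑ k ∈ Finset.range (L + 1), logHeight₁ (y j k) ≤
      Module.finrank ℚ K * (n * B) := by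
    have h1 : ∀ j : Fin n, ∑ k ∈ Finset.range (L + 1), logHeight₁ (y j k) ≤
        Module.finrank ℚ K * B := by
      intro j
      have h2 : ∑ k ∈ Finset.range (L + 1), logHeight₁ (y j k) =
          ∑ k ∈ Finset.range (L + 1), if k ∈ G then logHeight₁ (w (x j) k) else 0 := by
        refine Finset.sum_congr rfl fun k _ => ?_
        rw [hyd]
        show logHeight₁ (if k ∈ G then w (x j) k else 0) = _
        split_ifs
        · rfl
        · exact logHeight₁_zero
      rw [h2, Finset.sum_ite_mem]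
      have h3 : Finset.range (L + 1) ∩ G = G := by
        refine Finset.inter_eq_right.2 fun k hk => ?_
        have := f9 k hk
        exact Finset.mem_range.2 (by omega)
      rw [h3]
      exact hB _ (hx j) G f7 f9
    calc _ ≤ ∑ _j : Fin n, (Module.finrank ℚ K * B : ℝ) :=
          Finset.sum_le_sum fun j _ => h1 j
      _ = _ := by
        rw [Finset.sum_const, Finset.card_univ, Fintype.card_fin, nsmul_eq_mul]
        ring
  have hzz : ∑ j : Fin n, ∑ k ∈ Finset.range m, logHeight₁ (z (x j) k) ≤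
      Module.finrank ℚ K * (n * A) := by
    calc _ ≤ ∑ _j : Fin n, (Module.finrank ℚ K * A : ℝ) :=
          Finset.sum_le_sum fun j _ => hz3 _ (hx j)
      _ = _ := by
        rw [Finset.sum_const, Finset.card_univ, Fintype.card_fin, nsmul_eq_mul]
        ring
  have h3 : (n : ℝ) * r / s * ∑ j : Fin n, ∑ k ∈ Finset.range m, logHeight₁ (z (x j) k) ≤
      n * r / s * (Module.finrank ℚ K * (n * A)) := mul_le_mul_of_nonneg_left hzz (by positivity)
  have h4 : ((4 * q : ℕ) : ℝ) * ∑ j : Fin n, ∑ k ∈ Finset.range (L + 1), logHeight₁ (y j k) ≤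
      4 * q * (Module.finrank ℚ K * (n * B)) := by
    push_cast
    exact mul_le_mul_of_nonneg_left hy (by positivity)
  have hD : (0 : ℝ) < Module.finrank ℚ K := by exact_mod_cast Module.finrank_pos
  refine le_of_mul_le_mul_left ?_ hD
  calc _ ≤ _ := hglob
    _ ≤ Module.finrank ℚ K * Real.log n.factorial + 4 * q * (Module.finrank ℚ K * (n * B)) +
        n * r / s * (Module.finrank ℚ K * (n * A)) := by linarith
    _ = _ := by ring

end Pool.Agent.TH777.LE
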