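import Mathlib

set_option autoImplicit false

/-!
# Rational functions: a degree bound, values, zeros
-/

namespace Pool.Agent.TH777.LE

open Polynomial

variable {𝕜 : Type} [Field 𝕜]

/-- the embedding of the polynomials -/
noncomputable abbrev em (P : 𝕜[X]) : RatFunc 𝕜 := algebraMap 𝕜[X] (RatFunc 𝕜) P

theorem em_inj {P Q : 𝕜[X]} (h : em P = em Q) : P = Q :=
  RatFunc.algebraMap_injective 𝕜 h

theorem em_ne {P : 𝕜[X]} (h : P ≠ 0) : em P ≠ 0 := by
  intro h0
  exact h (em_inj (by rw [h0, em, map_zero]))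

/-- `g` is a quotient of polynomials of degree at most `E` -/
def Bd (E : ℕ) (g : RatFunc 𝕜) : Prop :=
  ∃ P Q : 𝕜[X], Q ≠ 0 ∧ P.natDegree ≤ E ∧ Q.natDegree ≤ E ∧ g * em Q = em P

theorem Bd.mono {E E' : ℕ} {g : RatFunc 𝕜} (h : Bd E g) (hE : E ≤ E') : Bd E' g := by
  obtain ⟨P, Q, h0, h1, h2, h3⟩ := h
  exact ⟨P, Q, h0, h1.trans hE, h2.trans hE, h3⟩

theorem Bd.const (a : 𝕜) : Bd 0 (RatFunc.C a) := by
  refine ⟨C a, 1, one_ne_zero, by simp, by simp, ?_⟩
  simp [em, RatFunc.algebraMap_C]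

theorem Bd.var : Bd 1 (RatFunc.X : RatFunc 𝕜) := by
  refine ⟨X, 1, one_ne_zero, by simp, by simp, ?_⟩
  simp [em, RatFunc.algebraMap_X]

theorem Bd.add {E F : ℕ} {g h : RatFunc 𝕜} (hg : Bd E g) (hh : Bd F h) : Bd (E + F) (g + h) := by
  obtain ⟨P, Q, h0, h1, h2, h3⟩ := hg
  obtain ⟨P', Q', h0', h1', h2', h3'⟩ := hh
  refine ⟨P * Q' + P' * Q, Q * Q', mul_ne_zero h0 h0', ?_, ?_, ?_⟩
  · refine (natDegree_add_le _ _).trans (max_le ?_ ?_)
    · exact natDegree_mul_le.trans (by omega)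
    · exact natDegree_mul_le.trans (by omega)
  · exact natDegree_mul_le.trans (by omega)
  · simp only [em, map_add, map_mul] at *
    rw [← h3, ← h3']
    ring

theorem Bd.mul {E F : ℕ} {g h : RatFunc 𝕜} (hg : Bd E g) (hh : Bd F h) : Bd (E + F) (g * h) := by
  obtain ⟨P, Q, h0, h1, h2, h3⟩ := hg
  obtain ⟨P', Q', h0', h1', h2', h3'⟩ := hh
  refine ⟨P * P', Q * Q', mul_ne_zero h0 h0', ?_, ?_, ?_⟩
  · exact natDegree_mul_le.trans (by omega)
  · exact natDegree_mul_le.trans (by omega)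
  · simp only [em, map_mul] at *
    rw [← h3, ← h3']
    ring

theorem Bd.neg {E : ℕ} {g : RatFunc 𝕜} (hg : Bd E g) : Bd E (-g) := by
  obtain ⟨P, Q, h0, h1, h2, h3⟩ := hg
  refine ⟨-P, Q, h0, by rwa [natDegree_neg], h2, ?_⟩
  simp only [em, map_neg] at *
  rw [← h3]
  ring

theorem Bd.sub {E F : ℕ} {g h : RatFunc 𝕜} (hg : Bd E g) (hh : Bd F h) : Bd (E + F) (g - h) := by
  rw [sub_eq_add_neg]
  exact hg.add hh.neg

theorem Bd.inv {E : ℕ} {g : RatFunc 𝕜} (hg : Bd E g) (h : g ≠ 0) : Bd E g⁻¹ := by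
  obtain ⟨P, Q, h0, h1, h2, h3⟩ := hg
  refine ⟨Q, P, ?_, h2, h1, ?_⟩
  · rintro rfl
    have h4 := em_ne h0
    have h5 : em (0 : 𝕜[X]) = 0 := map_zero _
    rw [h5] at h3
    rcases mul_eq_zero.1 h3 with h6 | h6
    · exact h h6
    · exact h4 h6
  · rw [← h3, inv_mul_cancel_left₀ h]

theorem Bd.div {E F : ℕ} {g h : RatFunc 𝕜} (hg : Bd E g) (hh : Bd F h) (h0 : h ≠ 0) :
    Bd (E + F) (g / h) := by
  rw [div_eq_mul_inv]
  exact hg.mul (hh.inv h0)

/-- `g` has the value `w` at `x` -/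
def Val (x : 𝕜) (g : RatFunc 𝕜) (w : 𝕜) : Prop :=
  ∃ p q : 𝕜[X], q.eval x ≠ 0 ∧ g * em q = em p ∧ w * q.eval x = p.eval x

theorem Val.const (x a : 𝕜) : Val x (RatFunc.C a) a := by
  refine ⟨C a, 1, by simp, ?_, by simp⟩
  simp [em, RatFunc.algebraMap_C]

theorem Val.var (x : 𝕜) : Val x RatFunc.X x := by
  refine ⟨X, 1, by simp, ?_, by simp⟩
  simp [em, RatFunc.algebraMap_X]

theorem Val.add {x : 𝕜} {g h : RatFunc 𝕜} {v w : 𝕜} (hg : Val x g v) (hh : Val x h w) :
    Val x (g + h) (v + w) := by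
  obtain ⟨P, Q, h0, h1, h2⟩ := hg
  obtain ⟨P', Q', h0', h1', h2'⟩ := hh
  refine ⟨P * Q' + P' * Q, Q * Q', ?_, ?_, ?_⟩
  · rw [eval_mul]
    exact mul_ne_zero h0 h0'
  · simp only [em, map_add, map_mul] at *
    rw [← h1, ← h1']
    ring
  · simp only [eval_add, eval_mul]
    rw [← h2, ← h2']
    ring

theorem Val.mul {x : 𝕜} {g h : RatFunc 𝕜} {v w : 𝕜} (hg : Val x g v) (hh : Val x h w) :
    Val x (g * h) (v * w) := by
  obtain ⟨P, Q, h0, h1, h2⟩ := hg
  obtain ⟨P', Q', h0', h1', h2'⟩ := hh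
  refine ⟨P * P', Q * Q', ?_, ?_, ?_⟩
  · rw [eval_mul]
    exact mul_ne_zero h0 h0'
  · simp only [em, map_mul] at *
    rw [← h1, ← h1']
    ring
  · simp only [eval_mul]
    rw [← h2, ← h2']
    ring

theorem Val.sub {x : 𝕜} {g h : RatFunc 𝕜} {v w : 𝕜} (hg : Val x g v) (hh : Val x h w) :
    Val x (g - h) (v - w) := by
  have h1 := hg.add ((Val.const x (-1)).mul hh)
  have e1 : g - h = g + RatFunc.C (-1) * h := by
    rw [map_neg, map_one]
    ring
  have e2 : v - w = v + (-1) * w := by ring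
  rw [e1, e2]
  exact h1

theorem Val.inv {x : 𝕜} {g : RatFunc 𝕜} {v : 𝕜} (hg : Val x g v) (hv : v ≠ 0) :
    Val x g⁻¹ v⁻¹ := by
  obtain ⟨P, Q, h0, h1, h2⟩ := hg
  have hP : P.eval x ≠ 0 := by
    rw [← h2]
    exact mul_ne_zero hv h0
  have hg0 : g ≠ 0 := by
    rintro rfl
    rw [zero_mul] at h1
    have h3 : P ≠ 0 := by
      rintro rfl
      simp at hP
    exact em_ne h3 h1.symm
  refine ⟨Q, P, hP, ?_, ?_⟩
  · rw [← h1, inv_mul_cancel_left₀ hg0]
  · rw [← h2, inv_mul_cancel_left₀ hv]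

theorem Val.div {x : 𝕜} {g h : RatFunc 𝕜} {v w : 𝕜} (hg : Val x g v) (hh : Val x h w)
    (hw : w ≠ 0) : Val x (g / h) (v / w) := by
  rw [div_eq_mul_inv, div_eq_mul_inv]
  exact hg.mul (hh.inv hw)

theorem Val.pow {x : 𝕜} {g : RatFunc 𝕜} {v : 𝕜} (hg : Val x g v) : ∀ n : ℕ, Val x (g ^ n) (v ^ n)
  | 0 => by
    rw [pow_zero, pow_zero]
    have := Val.const x 1
    rwa [map_one] at this
  | n + 1 => by
    rw [pow_succ, pow_succ]
    exact (Val.pow hg n).mul hg

theorem Val.prod {x : 𝕜} (g : ℕ → RatFunc 𝕜) (v : ℕ → 𝕜) : ∀ n : ℕ, (∀ i < n, Val x (g i) (v i)) →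
    Val x (∏ i ∈ Finset.range n, g i) (∏ i ∈ Finset.range n, v i)
  | 0, _ => by
    have := Val.const x 1
    rwa [map_one] at this
  | n + 1, h => by
    rw [Finset.prod_range_succ, Finset.prod_range_succ]
    exact (Val.prod g v n fun i hi => h i (by omega)).mul (h n (by omega))

theorem Val.sum {x : 𝕜} {ι : Type} (s : Finset ι) (g : ι → RatFunc 𝕜) (v : ι → 𝕜)
    (h : ∀ i ∈ s, Val x (g i) (v i)) : Val x (∑ i ∈ s, g i) (∑ i ∈ s, v i) := by
  classical
  induction s using Finset.induction_on with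
  | empty =>
    simp only [Finset.sum_empty]
    have := Val.const x 0
    rwa [map_zero] at this
  | insert a s ha ih =>
    rw [Finset.sum_insert ha, Finset.sum_insert ha]
    exact (h a (Finset.mem_insert_self _ _)).add
      (ih fun i hi => h i (Finset.mem_insert_of_mem hi))

/-- the value and any representation as a quotient -/
theorem Val.eval {x : 𝕜} {g : RatFunc 𝕜} {w : 𝕜} (h : Val x g w) {P Q : 𝕜[X]}
    (hPQ : g * em Q = em P) : P.eval x = w * Q.eval x := by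
  obtain ⟨p, q, h0, h1, h2⟩ := h
  have h3 : em (P * q) = em (p * Q) := by
    simp only [em, map_mul] at *
    rw [← hPQ, ← h1]
    ring
  have h4 := congrArg (fun r => Polynomial.eval x r) (em_inj h3)
  simp only [eval_mul] at h4
  rw [← h2] at h4
  have h5 : P.eval x * q.eval x = (w * Q.eval x) * q.eval x := by
    rw [h4]
    ring
  exact mul_right_cancel₀ h0 h5

theorem card_le_natDegree {P : 𝕜[X]} (hP : P ≠ 0) (S : Finset 𝕜) (h : ∀ x ∈ S, P.eval x = 0) :
    S.card ≤ P.natDegree := by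
  classical
  have h1 : S ⊆ P.roots.toFinset := by
    intro x hx
    rw [Multiset.mem_toFinset, mem_roots hP, IsRoot.def]
    exact h x hx
  exact (Finset.card_le_card h1).trans ((Multiset.toFinset_card_le _).trans (card_roots' _))

/-- the number of zeros -/
theorem zeros {E : ℕ} {g : RatFunc 𝕜} (h : Bd E g) (hg : g ≠ 0) (S : Finset 𝕜)
    (hS : ∀ x ∈ S, Val x g 0) : S.card ≤ E := by
  obtain ⟨P, Q, h0, h1, h2, h3⟩ := h
  have hP : P ≠ 0 := by
    rintro rfl
    have h5 : em (0 : 𝕜[X]) = 0 := map_zero _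
    rw [h5] at h3
    rcases mul_eq_zero.1 h3 with h6 | h6
    · exact hg h6
    · exact em_ne h0 h6
  refine (card_le_natDegree hP S fun x hx => ?_).trans h1
  rw [(hS x hx).eval h3, zero_mul]

/-- a root of a polynomial with coefficients of degree at most `E` -/
theorem bd_of_root {E : ℕ} {y : RatFunc 𝕜} : ∀ (n : ℕ) (p : (𝕜[X])[X]), p.natDegree ≤ n → p ≠ 0 →
    (∀ i, (p.coeff i).natDegree ≤ E) → aeval y p = 0 → Bd E y := by
  intro n
  induction n with
  | zero =>
    intro p hn hp hc hy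
    exfalso
    rw [eq_C_of_natDegree_le_zero hn, aeval_C] at hy
    have h1 := em_inj (P := p.coeff 0) (Q := 0) (by rw [em, hy, em, map_zero])
    apply hp
    rw [eq_C_of_natDegree_le_zero hn, h1, C_0]
  | succ n ih =>
    intro p hn hp hc hy
    by_cases h0 : p.coeff 0 = 0
    · have h1 : p.divX * X = p := by
        have := divX_mul_X_add p
        rwa [h0, C_0, add_zero] at this
      rcases eq_or_ne y 0 with hy0 | hy0
      · rw [hy0]
        have := (Bd.const (0 : 𝕜)).mono (Nat.zero_le E)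
        rwa [map_zero] at this
      · refine ih p.divX ?_ ?_ ?_ ?_
        · rw [natDegree_divX_eq_natDegree_tsub_one]
          omega
        · intro h
          rw [h, zero_mul] at h1
          exact hp h1.symm
        · intro i
          rw [coeff_divX]
          exact hc _
        · rw [← h1, map_mul, aeval_X] at hy
          rcases mul_eq_zero.1 hy with h2 | h2
          · exact h2
          · exact absurd h2 hy0
    · have h1 := num_dvd_of_is_root hy
      have h2 := den_dvd_of_is_root hy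
      have hden : (IsFractionRing.den 𝕜[X] y : 𝕜[X]) ≠ 0 := nonZeroDivisors.coe_ne_zero _
      refine ⟨IsFractionRing.num 𝕜[X] y, IsFractionRing.den 𝕜[X] y, hden, ?_, ?_, ?_⟩
      · exact (natDegree_le_of_dvd h1 h0).trans (hc 0)
      · exact (natDegree_le_of_dvd h2 (leadingCoeff_ne_zero.2 hp)).trans (hc _)
      · have h3 := IsFractionRing.mk'_num_den 𝕜[X] y
        have h4 := IsLocalization.mk'_spec (RatFunc 𝕜) (IsFractionRing.num 𝕜[X] y)
          (IsFractionRing.den 𝕜[X] y)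
        rw [h3] at h4
        exact h4

end Pool.Agent.TH777.LE
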