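import Pool.Agent.TH777.LE.Deg
import Pool.Agent.TH777.LC.Prog
import Pool.Agent.TH777.LD.Loc

set_option autoImplicit false

/-!
# Programs with divisions over a field
-/

namespace Pool.Agent.TH777.LE

open Polynomial

open Pool.Agent.TH777.LC (Instr Step inv_poly)

open Pool.Agent.TH777.LD (OO mem_OO)

variable {𝕜 : Type} [Field 𝕜] {ι : ℚ → 𝕜}

theorem val_prog {L : ℕ} {P : ℕ → Instr} {g : ℕ → RatFunc 𝕜} {x : 𝕜} {w : ℕ → 𝕜}
    (hg : ∀ k ≤ L, Step (fun a => RatFunc.C (ι a)) RatFunc.X g k (P k))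
    (hw : ∀ k ≤ L, Step ι x w k (P k)) : ∀ k ≤ L, Val x (g k) (w k) := by
  intro k
  induction k using Nat.strong_induction_on with
  | _ k ih =>
    intro hk
    have h1 := hg k hk
    have h2 := hw k hk
    cases hP : P k with
    | var =>
      rw [hP] at h1 h2
      simp only [Step] at h1 h2
      rw [h1, h2]
      exact Val.var x
    | const a =>
      rw [hP] at h1 h2
      simp only [Step] at h1 h2
      rw [h1, h2]
      exact Val.const x (ι a)
    | add i j =>
      rw [hP] at h1 h2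
      obtain ⟨hi, hj, h1⟩ := h1
      obtain ⟨_, _, h2⟩ := h2
      rw [h1, h2]
      exact (ih i hi (by omega)).add (ih j hj (by omega))
    | sub i j =>
      rw [hP] at h1 h2
      obtain ⟨hi, hj, h1⟩ := h1
      obtain ⟨_, _, h2⟩ := h2
      rw [h1, h2]
      exact (ih i hi (by omega)).sub (ih j hj (by omega))
    | mul i j =>
      rw [hP] at h1 h2
      obtain ⟨hi, hj, h1⟩ := h1
      obtain ⟨_, _, h2⟩ := h2
      rw [h1, h2]
      exact (ih i hi (by omega)).mul (ih j hj (by omega))
    | div i j =>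
      rw [hP] at h1 h2
      obtain ⟨hi, hj, _, h1⟩ := h1
      obtain ⟨_, _, h0, h2⟩ := h2
      rw [h1, h2]
      exact (ih i hi (by omega)).div (ih j hj (by omega)) h0

/-- the first gate of large degree -/
theorem first_gate {L : ℕ} {P : ℕ → Instr} {g : ℕ → RatFunc 𝕜}
    (hg : ∀ k ≤ L, Step (fun a => RatFunc.C (ι a)) RatFunc.X g k (P k)) {t : ℕ} (ht : 1 ≤ t)
    (hL : ¬ Bd (t - 1) (g L)) : ∃ k ≤ L, ¬ Bd (t - 1) (g k) ∧ Bd (2 * t - 1) (g k) := by
  classical
  have hex : ∃ k, k ≤ L ∧ ¬ Bd (t - 1) (g k) := ⟨L, le_rfl, hL⟩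
  obtain ⟨k, hkf⟩ : ∃ k, k = Nat.find hex := ⟨_, rfl⟩
  have hspec := Nat.find_spec hex
  rw [← hkf] at hspec
  obtain ⟨hk, hdeg⟩ := hspec
  have hmin : ∀ j < k, Bd (t - 1) (g j) := by
    intro j hj
    have h1 := Nat.find_min hex (by rw [← hkf]; exact hj)
    by_contra h
    exact h1 ⟨by omega, h⟩
  refine ⟨k, hk, hdeg, ?_⟩
  have h1 := hg k hk
  cases hP : P k with
  | var =>
    rw [hP] at h1
    simp only [Step] at h1
    rw [h1]
    exact Bd.var.mono (by omega)
  | const a =>
    rw [hP] at h1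
    simp only [Step] at h1
    rw [h1]
    exact (Bd.const (ι a)).mono (by omega)
  | add i j =>
    rw [hP] at h1
    obtain ⟨hi, hj, h1⟩ := h1
    rw [h1]
    exact ((hmin i hi).add (hmin j hj)).mono (by omega)
  | sub i j =>
    rw [hP] at h1
    obtain ⟨hi, hj, h1⟩ := h1
    rw [h1]
    exact ((hmin i hi).sub (hmin j hj)).mono (by omega)
  | mul i j =>
    rw [hP] at h1
    obtain ⟨hi, hj, h1⟩ := h1
    rw [h1]
    exact ((hmin i hi).mul (hmin j hj)).mono (by omega)
  | div i j =>
    rw [hP] at h1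
    obtain ⟨hi, hj, h0, h1⟩ := h1
    rw [h1]
    exact ((hmin i hi).div (hmin j hj) h0).mono (by omega)

/-- the variable occurs -/
theorem exists_var {L : ℕ} {P : ℕ → Instr} {g : ℕ → RatFunc 𝕜}
    (hg : ∀ k ≤ L, Step (fun a => RatFunc.C (ι a)) RatFunc.X g k (P k))
    (hL : ¬ Bd 0 (g L)) : ∃ k ≤ L, P k = Instr.var := by
  by_contra hcon
  push Not at hcon
  have hall : ∀ k ≤ L, Bd 0 (g k) := by
    intro k
    induction k using Nat.strong_induction_on with
    | _ k ih =>
      intro hk
      have h1 := hg k hk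
      cases hP : P k with
      | var => exact absurd hP (hcon k hk)
      | const a =>
        rw [hP] at h1
        simp only [Step] at h1
        rw [h1]
        exact Bd.const (ι a)
      | add i j =>
        rw [hP] at h1
        obtain ⟨hi, hj, h1⟩ := h1
        rw [h1]
        exact (ih i hi (by omega)).add (ih j hj (by omega))
      | sub i j =>
        rw [hP] at h1
        obtain ⟨hi, hj, h1⟩ := h1
        rw [h1]
        exact (ih i hi (by omega)).sub (ih j hj (by omega))
      | mul i j =>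
        rw [hP] at h1
        obtain ⟨hi, hj, h1⟩ := h1
        rw [h1]
        exact (ih i hi (by omega)).mul (ih j hj (by omega))
      | div i j =>
        rw [hP] at h1
        obtain ⟨hi, hj, h0, h1⟩ := h1
        rw [h1]
        exact (ih i hi (by omega)).div (ih j hj (by omega)) h0
  exact hL (hall L le_rfl)

/-- the results at the good points are values of polynomials over the local ring -/
theorem rep {v : AbsoluteValue 𝕜 ℝ} (hv : IsNonarchimedean v) {L : ℕ} {P : ℕ → Instr} {J : Type}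
    [Fintype J] (x : J → 𝕜) (w : J → ℕ → 𝕜) (hw : ∀ j, ∀ k ≤ L, Step ι (x j) (w j) k (P k))
    (hd : ∀ j, ∀ k ≤ L, v (w j k) ≤ 1)
    (hn : ∀ j, ∀ k ≤ L, ∀ i i', P k = Instr.div i i' → v (w j i')⁻¹ ≤ 1) (ξ : J → OO v hv)
    (hξ : ∀ j, ((ξ j : OO v hv) : 𝕜) = x j) : ∀ k ≤ L,
    ∃ H : (OO v hv)[X], ∀ j, ((H.eval (ξ j) : OO v hv) : 𝕜) = w j k := by
  intro k
  induction k using Nat.strong_induction_on with
  | _ k ih =>
    intro hk
    rcases isEmpty_or_nonempty J with hJ | ⟨⟨j0⟩⟩
    · exact ⟨0, fun j => (IsEmpty.false j).elim⟩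
    cases hP : P k with
    | var =>
      refine ⟨X, fun j => ?_⟩
      have h1 := hw j k hk
      rw [hP] at h1
      simp only [Step] at h1
      rw [eval_X, h1, hξ]
    | const a =>
      have h0 := hw j0 k hk
      rw [hP] at h0
      simp only [Step] at h0
      have h2 := hd j0 k hk
      rw [h0] at h2
      refine ⟨C ⟨ι a, h2⟩, fun j => ?_⟩
      have h1 := hw j k hk
      rw [hP] at h1
      simp only [Step] at h1
      rw [eval_C, h1]
    | add i i' =>
      have h0 := hw j0 k hk
      rw [hP] at h0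
      obtain ⟨hi, hi', _⟩ := h0
      obtain ⟨H, hH⟩ := ih i hi (by omega)
      obtain ⟨H', hH'⟩ := ih i' hi' (by omega)
      refine ⟨H + H', fun j => ?_⟩
      have h1 := hw j k hk
      rw [hP] at h1
      obtain ⟨_, _, h1⟩ := h1
      rw [eval_add, h1, Subring.coe_add, hH, hH']
    | sub i i' =>
      have h0 := hw j0 k hk
      rw [hP] at h0
      obtain ⟨hi, hi', _⟩ := h0
      obtain ⟨H, hH⟩ := ih i hi (by omega)
      obtain ⟨H', hH'⟩ := ih i' hi' (by omega)
      refine ⟨H - H', fun j => ?_⟩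
      have h1 := hw j k hk
      rw [hP] at h1
      obtain ⟨_, _, h1⟩ := h1
      rw [eval_sub, h1, AddSubgroupClass.coe_sub, hH, hH']
    | mul i i' =>
      have h0 := hw j0 k hk
      rw [hP] at h0
      obtain ⟨hi, hi', _⟩ := h0
      obtain ⟨H, hH⟩ := ih i hi (by omega)
      obtain ⟨H', hH'⟩ := ih i' hi' (by omega)
      refine ⟨H * H', fun j => ?_⟩
      have h1 := hw j k hk
      rw [hP] at h1
      obtain ⟨_, _, h1⟩ := h1
      rw [eval_mul, h1, Subring.coe_mul, hH, hH']
    | div i i' =>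
      have h0 := hw j0 k hk
      rw [hP] at h0
      obtain ⟨hi, hi', _, _⟩ := h0
      obtain ⟨H, hH⟩ := ih i hi (by omega)
      obtain ⟨H', hH'⟩ := ih i' hi' (by omega)
      have hne : ∀ j, w j i' ≠ 0 := by
        intro j
        have h1 := hw j k hk
        rw [hP] at h1
        exact h1.2.2.1
      obtain ⟨H'', hH''⟩ := inv_poly ξ H' (by
        intro j
        have h1 : (H'.eval (ξ j)) * (⟨(w j i')⁻¹, hn j k hk i i' hP⟩ : OO v hv) = 1 := by
          apply Subtype.ext
          rw [Subring.coe_mul, hH' j]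
          exact mul_inv_cancel₀ (hne j)
        exact IsUnit.of_mul_eq_one _ h1)
      refine ⟨H * H'', fun j => ?_⟩
      have h1 := hw j k hk
      rw [hP] at h1
      obtain ⟨_, _, _, h1⟩ := h1
      rw [eval_mul, h1, Subring.coe_mul, hH, div_eq_mul_inv]
      congr 1
      have h2 := congrArg (fun z : OO v hv => (z : 𝕜)) (hH'' j)
      simp only [Subring.coe_mul, Subring.coe_one, hH'] at h2
      exact eq_inv_of_mul_eq_one_right h2

end Pool.Agent.TH777.LE
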