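import Pool.Agent.TH777.LE.Deg

set_option autoImplicit false

/-!
# Linear independence of the products of powers of gates
-/

namespace Pool.Agent.TH777.LE

open Polynomial

variable {𝕜 : Type} [Field 𝕜]

/-- linear independence over the constants -/
def Indep {ι : Type} [Fintype ι] (f : ι → RatFunc 𝕜) : Prop :=
  ∀ c : ι → 𝕜, ∑ i, RatFunc.C (c i) * f i = 0 → ∀ i, c i = 0

/-- a common denominator -/
def CD {ι : Type} (E : ℕ) (f : ι → RatFunc 𝕜) : Prop :=
  ∃ Δ : 𝕜[X], Δ ≠ 0 ∧ ∀ i, ∃ U : 𝕜[X], U.natDegree ≤ E ∧ f i * em Δ = em U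

theorem CD.step {ι : Type} {E B q : ℕ} {f : ι → RatFunc 𝕜} {g : RatFunc 𝕜} (hf : CD E f)
    (hg : Bd B g) : CD (E + (q - 1) * B) (fun i : ι × Fin q => f i.1 * g ^ (i.2 : ℕ)) := by
  obtain ⟨Δ, h0, h1⟩ := hf
  obtain ⟨P, Q, hQ, hP1, hQ1, hPQ⟩ := hg
  refine ⟨Δ * Q ^ (q - 1), mul_ne_zero h0 (pow_ne_zero _ hQ), ?_⟩
  rintro ⟨i, a⟩
  obtain ⟨U, hU, hfU⟩ := h1 i
  have ha : (a : ℕ) + (q - 1 - a) = q - 1 := by
    have := a.2
    omega
  refine ⟨U * (P ^ (a : ℕ) * Q ^ (q - 1 - a)), ?_, ?_⟩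
  · refine natDegree_mul_le.trans (add_le_add hU (natDegree_mul_le.trans ?_))
    have h2 : (P ^ (a : ℕ)).natDegree ≤ a * B :=
      natDegree_pow_le.trans (Nat.mul_le_mul_left _ hP1)
    have h3 : (Q ^ (q - 1 - a)).natDegree ≤ (q - 1 - a) * B :=
      natDegree_pow_le.trans (Nat.mul_le_mul_left _ hQ1)
    calc (P ^ (a : ℕ)).natDegree + (Q ^ (q - 1 - a)).natDegree ≤ a * B + (q - 1 - a) * B :=
          add_le_add h2 h3
      _ = (q - 1) * B := by rw [← add_mul, ha]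
  · simp only [em, map_mul, map_pow] at *
    rw [← hfU, ← hPQ, mul_pow]
    have h4 : (algebraMap 𝕜[X] (RatFunc 𝕜) Q) ^ (q - 1) =
        (algebraMap 𝕜[X] (RatFunc 𝕜) Q) ^ (a : ℕ) * (algebraMap 𝕜[X] (RatFunc 𝕜) Q) ^ (q - 1 - a) := by
      rw [← pow_add, ha]
    rw [h4]
    ring

theorem em_C (a : 𝕜) : em (C a) = RatFunc.C a := by
  simp [em, RatFunc.algebraMap_C]

theorem em_sum {ι : Type} (s : Finset ι) (U : ι → 𝕜[X]) : em (∑ i ∈ s, U i) = ∑ i ∈ s, em (U i) :=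
  map_sum _ _ _

/-- a combination with a common denominator -/
theorem CD.comb {ι : Type} [Fintype ι] {E : ℕ} {f : ι → RatFunc 𝕜} {Δ : 𝕜[X]} {U : ι → 𝕜[X]}
    (hU : ∀ i, (U i).natDegree ≤ E ∧ f i * em Δ = em (U i)) (c : ι → 𝕜) :
    (∑ i, C (c i) * U i).natDegree ≤ E ∧
      (∑ i, RatFunc.C (c i) * f i) * em Δ = em (∑ i, C (c i) * U i) := by
  constructor
  · refine natDegree_sum_le_of_forall_le _ _ fun i _ => ?_
    exact (natDegree_C_mul_le _ _).trans (hU i).1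
  · rw [em_sum, Finset.sum_mul]
    refine Finset.sum_congr rfl fun i _ => ?_
    have h1 := (hU i).2
    have h2 : em (C (c i) * U i) = em (C (c i)) * em (U i) := map_mul _ _ _
    rw [h2, em_C, ← h1]
    ring

theorem Indep.step {ι : Type} [Fintype ι] {E q : ℕ} {f : ι → RatFunc 𝕜} {g : RatFunc 𝕜}
    (hf : Indep f) (hcd : CD E f) (hg : ¬ Bd E g) :
    Indep (fun i : ι × Fin q => f i.1 * g ^ (i.2 : ℕ)) := by
  classical
  intro c hc
  obtain ⟨Δ, h0, h1⟩ := hcd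
  choose U hU using h1
  set V : Fin q → 𝕜[X] := fun a => ∑ i, C (c (i, a)) * U i with hV
  have hVa : ∀ a, (V a).natDegree ≤ E ∧ (∑ i, RatFunc.C (c (i, a)) * f i) * em Δ = em (V a) :=
    fun a => CD.comb hU fun i => c (i, a)
  have hsum : ∑ a : Fin q, em (V a) * g ^ (a : ℕ) = 0 := by
    have h2 : (∑ x : ι × Fin q, RatFunc.C (c x) * (f x.1 * g ^ (x.2 : ℕ))) * em Δ = 0 := by
      rw [hc, zero_mul]
    rw [Fintype.sum_prod_type_right, Finset.sum_mul] at h2
    rw [← h2]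
    refine Finset.sum_congr rfl fun a _ => ?_
    rw [← (hVa a).2, Finset.sum_mul, Finset.sum_mul, Finset.sum_mul]
    refine Finset.sum_congr rfl fun i _ => ?_
    ring
  set p : (𝕜[X])[X] := ∑ a : Fin q, Polynomial.monomial (a : ℕ) (V a) with hp
  have hcoeff : ∀ n, p.coeff n = ∑ a : Fin q, if (a : ℕ) = n then V a else 0 := by
    intro n
    rw [hp, finsetSum_coeff]
    refine Finset.sum_congr rfl fun a _ => ?_
    rw [coeff_monomial]
  have hroot : aeval g p = 0 := by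
    rw [hp, map_sum]
    rw [← hsum]
    refine Finset.sum_congr rfl fun a _ => ?_
    rw [aeval_monomial]
  have hp0 : p = 0 := by
    by_contra hne
    apply hg
    refine bd_of_root p.natDegree p le_rfl hne ?_ hroot
    intro n
    rw [hcoeff]
    refine natDegree_sum_le_of_forall_le _ _ fun a _ => ?_
    split_ifs
    · exact (hVa a).1
    · simp
  have hV0 : ∀ a, V a = 0 := by
    intro a
    have h2 := hcoeff a
    rw [hp0, coeff_zero] at h2
    rw [Finset.sum_eq_single a] at h2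
    · simpa using h2.symm
    · intro b _ hb
      rw [if_neg]
      intro h3
      exact hb (Fin.ext h3)
    · intro h3
      exact absurd (Finset.mem_univ a) h3
  rintro ⟨i, a⟩
  refine hf (fun i => c (i, a)) ?_ i
  have h2 := (hVa a).2
  rw [hV0 a] at h2
  have h3 : em (0 : 𝕜[X]) = 0 := map_zero _
  rw [h3] at h2
  rcases mul_eq_zero.1 h2 with h4 | h4
  · exact h4
  · exact absurd h4 (em_ne h0)

end Pool.Agent.TH777.LE
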