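import Pool.Agent.TH777.LE.Pre

set_option autoImplicit false

/-!
# The bound for circuits with divisions and roots of bounded degree
-/

namespace Pool.Agent.TH777.LE

open Height Height.AdmissibleAbsValues

open Pool.Agent.TH777.LC (Instr Step)

open Pool.Agent.TH777.LD (ramif ht_nat integral_le_one)

/-- the numerical part for total heights -/
theorem numA {κ B : ℝ} {d q : ℕ} (hκ : 1 ≤ κ) (hd : 1 ≤ d) (hq : 1 ≤ q) (hB : 0 < B) :
    κ ^ d * ((d * (2 * B)) ^ (d - 1) * (((q + 2 * d + 2 : ℕ) : ℝ) * B + d * (2 * B))) ≤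
      (7 * κ * d) ^ d * (q * B ^ d) := by
  have hqr : (1 : ℝ) ≤ q := by exact_mod_cast hq
  have hd1 : (1 : ℝ) ≤ d := by exact_mod_cast hd
  have hκ0 : 0 < κ := by linarith
  have h2 : ((q + 2 * d + 2 : ℕ) : ℝ) * B + d * (2 * B) ≤ 7 * d * q * B := by
    push_cast
    have h3 : (q : ℝ) ≤ d * q := by nlinarith
    have h4 : (d : ℝ) ≤ d * q := by nlinarith
    have h5 : (1 : ℝ) ≤ d * q := by nlinarith
    have h6 : (q : ℝ) + 2 * d + 2 + 2 * d ≤ 7 * (d * q) := by linarith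
    calc ((q : ℝ) + 2 * d + 2) * B + d * (2 * B) = ((q : ℝ) + 2 * d + 2 + 2 * d) * B := by ring
      _ ≤ (7 * (d * q)) * B := mul_le_mul_of_nonneg_right h6 hB.le
      _ = _ := by ring
  obtain ⟨e, rfl⟩ : ∃ e, d = e + 1 := ⟨d - 1, by omega⟩
  have e0 : e + 1 - 1 = e := rfl
  rw [e0]
  obtain ⟨D, hD⟩ : ∃ D : ℝ, D = ((e + 1 : ℕ) : ℝ) := ⟨_, rfl⟩
  rw [← hD] at hd1 h2 ⊢
  have hD0 : 0 < D := by linarith
  have h7 : κ ^ (e + 1) * ((D * (2 * B)) ^ e * (((q + 2 * (e + 1) + 2 : ℕ) : ℝ) * B +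
      D * (2 * B))) ≤ κ ^ (e + 1) * ((D * (2 * B)) ^ e * (7 * D * q * B)) :=
    mul_le_mul_of_nonneg_left (mul_le_mul_of_nonneg_left h2 (by positivity)) (by positivity)
  refine h7.trans ?_
  have e1 : κ ^ (e + 1) * ((D * (2 * B)) ^ e * (7 * D * q * B)) =
      (2 ^ e * 7) * (κ ^ (e + 1) * D ^ (e + 1) * (q * B ^ (e + 1))) := by
    rw [mul_pow, mul_pow]
    ring
  have e2 : (7 * κ * D) ^ (e + 1) * (q * B ^ (e + 1)) =
      7 ^ (e + 1) * (κ ^ (e + 1) * D ^ (e + 1) * (q * B ^ (e + 1))) := by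
    rw [mul_pow, mul_pow]
    ring
  rw [e1, e2]
  refine mul_le_mul_of_nonneg_right ?_ (by positivity)
  rw [pow_succ]
  exact mul_le_mul_of_nonneg_right (pow_le_pow_left₀ (by norm_num) (by norm_num) _) (by norm_num)

theorem partA {κ ν : ℝ} (hκ : 1 ≤ κ) (hfin : Good κ ν) {d : ℕ} (hd : 1 ≤ d) {K : Type} [Field K]
    [NumberField K] {L : ℕ} {P : ℕ → Instr} {g : ℕ → RatFunc ℚ} {S : Finset K} {w : K → ℕ → K}
    {B : ℝ} {q : ℕ} (hg : ∀ k ≤ L, Step (fun a => RatFunc.C a) RatFunc.X g k (P k))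
    (hgL : g L ≠ 0) (hB : 1 ≤ B) (hq : 1 ≤ q) (hBq : B ≤ (q : ℝ) ^ q) (hcard : 1 ≤ S.card)
    (hdeg : ∀ x ∈ S, (minpoly ℚ x).natDegree ≤ d)
    (hw : ∀ x ∈ S, ∀ k ≤ L, Step (algebraMap ℚ K) x (w x) k (P k)) (hwL : ∀ x ∈ S, w x L = 0)
    (hwB : ∀ x ∈ S, ∑ k ∈ Finset.range (L + 1), logHeight₁ (w x k) ≤ Module.finrank ℚ K * B) :
    (S.card : ℝ) ≤ (7 * κ * d) ^ d * (q * B ^ d) := by
  have hB0 : 0 < B := by linarith
  have hqr : (1 : ℝ) ≤ q := by exact_mod_cast hq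
  have hd1 : (1 : ℝ) ≤ d := by exact_mod_cast hd
  obtain ⟨z, hz⟩ : ∃ z : K → ℕ → K, z = fun x k => if k ≤ L then w x k else (w x (k - (L + 1)))⁻¹ :=
    ⟨_, rfl⟩
  have hz1 : ∀ x k, k ≤ L → z x k = w x k := by
    intro x k hk
    rw [hz]
    exact if_pos hk
  have hz2 : ∀ x k, z x (L + 1 + k) = (w x k)⁻¹ := by
    intro x k
    rw [hz]
    show (if L + 1 + k ≤ L then w x (L + 1 + k) else (w x (L + 1 + k - (L + 1)))⁻¹) = _
    rw [if_neg (by omega), Nat.add_sub_cancel_left]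
  have hQ : ((q : ℝ)) ^ q ≤ ((q + 2 * d + 2 : ℕ) : ℝ) ^ (q + 2 * d + 1) := by
    calc (q : ℝ) ^ q ≤ ((q + 2 * d + 2 : ℕ) : ℝ) ^ q :=
          pow_le_pow_left₀ (by positivity) (by push_cast; linarith) _
      _ ≤ _ := pow_le_pow_right₀ (by push_cast; linarith) (by omega)
  have hQ1 : (1 : ℝ) ≤ ((q + 2 * d + 2 : ℕ) : ℝ) := by
    push_cast
    linarith
  have c1 : ∀ x ∈ S, ∀ v ∈ nonarchAbsVal (K := K), (∀ k < (L + 1) + (L + 1), v (z x k) ≤ 1) →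
      (∀ k ≤ L, v (w x k) ≤ 1) ∧ ∀ k ≤ L, ∀ i i', P k = Instr.div i i' → v (w x i')⁻¹ ≤ 1 := by
    intro x hx v hv hle
    refine ⟨fun k hk => ?_, fun k hk i i' hP => ?_⟩
    · have := hle k (by omega)
      rwa [hz1 x k hk] at this
    · have h2 := hw x hx k hk
      rw [hP] at h2
      have h3 : i' < k := h2.2.1
      have := hle (L + 1 + i') (by omega)
      rwa [hz2 x i'] at this
  have c2 : ∀ x ∈ S, ∀ v ∈ nonarchAbsVal (K := K), ∀ p : ℕ, p.Prime → v (p : K) < 1 →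
      ∀ k < (L + 1) + (L + 1), 1 < v (z x k) →
        -Real.log (v (p : K)) ≤ d * Real.log (v (z x k)) := by
    intro x hx v hv p hp hvp k hk h1
    have hmem := mem_prog (hw x hx)
    have hmem' : z x k ∈ IntermediateField.adjoin ℚ {x} := by
      by_cases hkL : k ≤ L
      · rw [hz1 x k hkL]
        exact hmem k hkL
      · obtain ⟨k', rfl⟩ : ∃ k', k = L + 1 + k' := ⟨k - (L + 1), by omega⟩
        rw [hz2]
        exact inv_mem (hmem k' (by omega))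
    obtain ⟨h, h0, h2, h3⟩ := alg_eq (hdeg x hx) hmem'
    exact ramif (isNonarchimedean v hv) hp hvp h1 h0 h2 h3
  have c3 : ∀ x ∈ S, ∑ k ∈ Finset.range ((L + 1) + (L + 1)), logHeight₁ (z x k) ≤
      Module.finrank ℚ K * (2 * B) := by
    intro x hx
    rw [Finset.sum_range_add]
    have h2 : ∑ k ∈ Finset.range (L + 1), logHeight₁ (z x k) =
        ∑ k ∈ Finset.range (L + 1), logHeight₁ (w x k) := by
      refine Finset.sum_congr rfl fun k hk => ?_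
      rw [hz1 x k (by have := Finset.mem_range.1 hk; omega)]
    have h3 : ∑ k ∈ Finset.range (L + 1), logHeight₁ (z x (L + 1 + k)) =
        ∑ k ∈ Finset.range (L + 1), logHeight₁ (w x k) := by
      refine Finset.sum_congr rfl fun k _ => ?_
      rw [hz2, logHeight₁_inv]
    rw [h2, h3]
    have h4 := hwB x hx
    linarith
  have c4 : 1 ≤ (d : ℝ) * (2 * B) := by nlinarith
  have c5 : (d : ℝ) * (2 * B) ≤ ((q + 2 * d + 2 : ℕ) : ℝ) ^ (q + 2 * d + 2) := by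
    calc (d : ℝ) * (2 * B) = (2 * d) * B := by ring
      _ ≤ ((q + 2 * d + 2 : ℕ) : ℝ) * ((q + 2 * d + 2 : ℕ) : ℝ) ^ (q + 2 * d + 1) :=
        mul_le_mul (by push_cast; linarith) (hBq.trans hQ) hB0.le (by positivity)
      _ = _ := by rw [← pow_succ']
  have c6 : B ≤ ((Nat.log (q + 2 * d + 2) S.card : ℝ) + 1) *
      ((q + 2 * d + 2 : ℕ) : ℝ) ^ (q + 2 * d + 2) := by
    have h1 : (0 : ℝ) ≤ (Nat.log (q + 2 * d + 2) S.card : ℝ) := Nat.cast_nonneg _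
    calc B ≤ 1 * ((q + 2 * d + 2 : ℕ) : ℝ) ^ (q + 2 * d + 2) := by
          rw [one_mul]
          exact (hBq.trans hQ).trans (pow_le_pow_right₀ hQ1 (by omega))
      _ ≤ _ := mul_le_mul_of_nonneg_right (by linarith) (by positivity)
  have c7 : ∀ x ∈ S, ∀ G : Finset ℕ, G.card ≤ Nat.log (q + 2 * d + 2) S.card + 1 →
      (∀ k ∈ G, k ≤ L) → ∑ k ∈ G, logHeight₁ (w x k) ≤ Module.finrank ℚ K * B := by
    intro x hx G _ hG
    refine (Finset.sum_le_sum_of_subset_of_nonneg ?_ fun k _ _ => zero_le_logHeight₁ _).trans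
      (hwB x hx)
    intro k hk
    have := hG k hk
    exact Finset.mem_range.2 (by omega)
  have h1 := hfin d K L P g S w (q + 2 * d + 2) ((L + 1) + (L + 1)) d z (2 * B) B hg hgL hcard
    (by omega) hdeg hw hwL c7 c1 c2 c3 c4 c5 hB0.le c6
  exact h1.2.trans (numA hκ hd hq hB0)

/-- the numerical part for maximal heights -/
theorem numB {κ ν A B J : ℝ} {d q : ℕ} (hκ : 1 ≤ κ) (hν : 0 ≤ ν) (hd : 1 ≤ d) (hq : 1 ≤ q)
    (hA : 1 ≤ A) (hB : 0 < B) (hJ : J ≤ ν * d * ((q + 2 : ℕ) : ℝ)) :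
    κ ^ d * (A ^ (d - 1) * (((q + 2 : ℕ) : ℝ) * ((J + 1) * B) + A)) ≤
      (18 * (ν + 1) * κ) ^ d * (A ^ (d - 1) * (q ^ 2 * B + A)) := by
  have hqr : (1 : ℝ) ≤ q := by exact_mod_cast hq
  have hd1 : (1 : ℝ) ≤ d := by exact_mod_cast hd
  have hκ0 : 0 < κ := by linarith
  have hA0 : 0 < A := by linarith
  have hν1 : 1 ≤ ν + 1 := by linarith
  obtain ⟨Q, hQ⟩ : ∃ Q : ℝ, Q = ((q + 2 : ℕ) : ℝ) := ⟨_, rfl⟩
  rw [← hQ] at hJ ⊢
  have hQ3 : Q ≤ 3 * q := by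
    rw [hQ]
    push_cast
    linarith
  have hQ1 : 1 ≤ Q := by
    rw [hQ]
    push_cast
    linarith
  have h1 : J + 1 ≤ (ν + 1) * d * Q := by
    have h2 : 1 ≤ d * Q := by nlinarith
    have e1 : (ν + 1) * d * Q = ν * d * Q + d * Q := by ring
    rw [e1]
    linarith
  have h2 : Q * ((J + 1) * B) + A ≤ 9 * (ν + 1) * d * (q ^ 2 * B + A) := by
    have h3 : Q * ((J + 1) * B) ≤ Q * (((ν + 1) * d * Q) * B) :=
      mul_le_mul_of_nonneg_left (mul_le_mul_of_nonneg_right h1 hB.le) (by linarith)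
    have h4 : Q ^ 2 ≤ 9 * (q : ℝ) ^ 2 := by
      calc Q ^ 2 ≤ (3 * (q : ℝ)) ^ 2 := pow_le_pow_left₀ (by linarith) hQ3 _
        _ = _ := by ring
    have h5 : (ν + 1) * d * B * Q ^ 2 ≤ (ν + 1) * d * B * (9 * (q : ℝ) ^ 2) :=
      mul_le_mul_of_nonneg_left h4 (by positivity)
    have h6 : A ≤ 9 * (ν + 1) * d * A := by
      have h7 : 1 ≤ 9 * (ν + 1) * d := by nlinarith
      calc A = 1 * A := (one_mul _).symm
        _ ≤ _ := mul_le_mul_of_nonneg_right h7 hA0.le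
    have e2 : Q * (((ν + 1) * d * Q) * B) = (ν + 1) * d * B * Q ^ 2 := by ring
    have e3 : 9 * (ν + 1) * d * (q ^ 2 * B + A) = (ν + 1) * d * B * (9 * (q : ℝ) ^ 2) +
        9 * (ν + 1) * d * A := by ring
    rw [e3]
    rw [e2] at h3
    linarith
  have h3 : 9 * (ν + 1) * d ≤ (18 * (ν + 1)) ^ d := by
    have h4 : (d : ℝ) ≤ 2 ^ d := by exact_mod_cast (Nat.lt_two_pow_self (n := d)).le
    have h5 : 9 * (ν + 1) ≤ (9 * (ν + 1)) ^ d := le_self_pow₀ (by linarith) (by omega)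
    have e1 : (18 * (ν + 1)) ^ d = (9 * (ν + 1)) ^ d * 2 ^ d := by
      rw [← mul_pow]
      ring
    rw [e1]
    exact mul_le_mul h5 h4 (by positivity) (by positivity)
  have h4 : 0 ≤ κ ^ d * (A ^ (d - 1) * (q ^ 2 * B + A)) := by positivity
  calc κ ^ d * (A ^ (d - 1) * (Q * ((J + 1) * B) + A)) ≤
      κ ^ d * (A ^ (d - 1) * (9 * (ν + 1) * d * (q ^ 2 * B + A))) :=
        mul_le_mul_of_nonneg_left (mul_le_mul_of_nonneg_left h2 (by positivity)) (by positivity)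
    _ = (9 * (ν + 1) * d) * (κ ^ d * (A ^ (d - 1) * (q ^ 2 * B + A))) := by ring
    _ ≤ (18 * (ν + 1)) ^ d * (κ ^ d * (A ^ (d - 1) * (q ^ 2 * B + A))) :=
        mul_le_mul_of_nonneg_right h3 h4
    _ = _ := by
        rw [mul_pow (18 * (ν + 1)) κ d]
        ring

theorem partB {κ ν : ℝ} (hκ : 1 ≤ κ) (hν : 0 ≤ ν) (hfin : Good κ ν) {d : ℕ} (hd : 1 ≤ d) {K : Type} [Field K]
    [NumberField K] {L : ℕ} {P : ℕ → Instr} {g : ℕ → RatFunc ℚ} {S : Finset K} {w : K → ℕ → K}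
    {B : ℝ} {q : ℕ} (hg : ∀ k ≤ L, Step (fun a => RatFunc.C a) RatFunc.X g k (P k))
    (hgL : g L ≠ 0) (hB : 1 ≤ B) (hq : 1 ≤ q) (hBq : B ≤ (q : ℝ) ^ q) (hcard : 1 ≤ S.card)
    (hdeg : ∀ x ∈ S, (minpoly ℚ x).natDegree ≤ d)
    (hw : ∀ x ∈ S, ∀ k ≤ L, Step (algebraMap ℚ K) x (w x) k (P k)) (hwL : ∀ x ∈ S, w x L = 0)
    (hwB : ∀ x ∈ S, ∀ k ≤ L, logHeight₁ (w x k) ≤ Module.finrank ℚ K * B)
    {n : K → ℕ} {A : ℝ} (hA : 1 ≤ A) (hAq : A ≤ (q : ℝ) ^ q)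
    (hn : ∀ x ∈ S, 1 ≤ n x ∧ Real.log (n x) ≤ A ∧
        (∀ k ≤ L, ∃ e : ℕ, IsIntegral ℤ ((n x : K) ^ e * w x k)) ∧
        ∀ k ≤ L, ∀ i j, P k = Instr.div i j → ∃ e : ℕ, IsIntegral ℤ ((n x : K) ^ e * (w x j)⁻¹)) :
    (S.card : ℝ) ≤ (18 * (ν + 1) * κ) ^ d * (A ^ (d - 1) * (q ^ 2 * B + A)) := by
  have hB0 : 0 < B := by linarith
  have hqr : (1 : ℝ) ≤ q := by exact_mod_cast hq
  obtain ⟨z, hz⟩ : ∃ z : K → ℕ → K, z = fun x _ => ((n x : ℕ) : K)⁻¹ := ⟨_, rfl⟩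
  have hz' : ∀ x k, z x k = ((n x : ℕ) : K)⁻¹ := fun x k => by rw [hz]
  have hQ : ((q : ℝ)) ^ q ≤ ((q + 2 : ℕ) : ℝ) ^ (q + 2) := by
    calc (q : ℝ) ^ q ≤ ((q + 2 : ℕ) : ℝ) ^ q :=
          pow_le_pow_left₀ (by positivity) (by push_cast; linarith) _
      _ ≤ _ := pow_le_pow_right₀ (by push_cast; linarith) (by omega)
  have c1 : ∀ x ∈ S, ∀ v ∈ nonarchAbsVal (K := K), (∀ k < 1, v (z x k) ≤ 1) →
      (∀ k ≤ L, v (w x k) ≤ 1) ∧ ∀ k ≤ L, ∀ i i', P k = Instr.div i i' → v (w x i')⁻¹ ≤ 1 := by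
    intro x hx v hv hle
    have hna := isNonarchimedean v hv
    obtain ⟨hn1, _, hn3, hn4⟩ := hn x hx
    have h2 := hle 0 one_pos
    have h0 : 0 < v ((n x : ℕ) : K) := v.pos (by exact_mod_cast (by omega : n x ≠ 0))
    rw [hz', map_inv₀] at h2
    have h3 : 1 ≤ v ((n x : ℕ) : K) := (inv_le_one₀ h0).1 h2
    have h4 : ∀ (e : ℕ) (u : K), IsIntegral ℤ ((n x : K) ^ e * u) → v u ≤ 1 := by
      intro e u hu
      have h5 := integral_le_one hna hu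
      rw [map_mul, map_pow] at h5
      calc v u = 1 * v u := (one_mul _).symm
        _ ≤ v ((n x : ℕ) : K) ^ e * v u :=
            mul_le_mul_of_nonneg_right (one_le_pow₀ h3) (v.nonneg _)
        _ ≤ 1 := h5
    refine ⟨fun k hk => ?_, fun k hk i i' hP => ?_⟩
    · obtain ⟨e, he⟩ := hn3 k hk
      exact h4 e _ he
    · obtain ⟨e, he⟩ := hn4 k hk i i' hP
      exact h4 e _ he
  have c2 : ∀ x ∈ S, ∀ v ∈ nonarchAbsVal (K := K), ∀ p : ℕ, p.Prime → v (p : K) < 1 →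
      ∀ k < 1, 1 < v (z x k) → -Real.log (v (p : K)) ≤ ((1 : ℕ) : ℝ) * Real.log (v (z x k)) := by
    intro x hx v hv p hp hvp k hk h1
    rw [hz'] at h1 ⊢
    exact nat_ram (isNonarchimedean v hv) (hn x hx).1 hp hvp h1
  have c3 : ∀ x ∈ S, ∑ k ∈ Finset.range 1, logHeight₁ (z x k) ≤ Module.finrank ℚ K * A := by
    intro x hx
    obtain ⟨hn1, hn2, _⟩ := hn x hx
    rw [Finset.sum_range_one, hz']
    exact (ht_nat (n x) hn1).trans (mul_le_mul_of_nonneg_left hn2 (Nat.cast_nonneg _))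
  obtain ⟨J, hJ⟩ : ∃ J : ℝ, J = (Nat.log (q + 2) S.card : ℝ) := ⟨_, rfl⟩
  have hJ0 : 0 ≤ J := by
    rw [hJ]
    exact Nat.cast_nonneg _
  have hD : (0 : ℝ) < Module.finrank ℚ K := by exact_mod_cast Module.finrank_pos
  have c7 : ∀ x ∈ S, ∀ G : Finset ℕ, G.card ≤ Nat.log (q + 2) S.card + 1 →
      (∀ k ∈ G, k ≤ L) → ∑ k ∈ G, logHeight₁ (w x k) ≤ Module.finrank ℚ K * ((J + 1) * B) := by
    intro x hx G hG1 hG2
    have h1 : (G.card : ℝ) ≤ J + 1 := by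
      rw [hJ]
      exact_mod_cast hG1
    calc ∑ k ∈ G, logHeight₁ (w x k) ≤ ∑ _k ∈ G, (Module.finrank ℚ K * B : ℝ) :=
          Finset.sum_le_sum fun k hk => hwB x hx k (hG2 k hk)
      _ = G.card * (Module.finrank ℚ K * B) := by rw [Finset.sum_const, nsmul_eq_mul]
      _ ≤ (J + 1) * (Module.finrank ℚ K * B) := mul_le_mul_of_nonneg_right h1 (by positivity)
      _ = _ := by ring
  have h1 := hfin d K L P g S w (q + 2) 1 1 z A ((J + 1) * B) hg hgL hcard (by omega) hdeg hw hwL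
    c7 c1 c2 c3 (by rw [Nat.cast_one, one_mul]; exact hA)
    (by rw [Nat.cast_one, one_mul]; exact hAq.trans hQ) (by positivity)
    (by
      rw [← hJ]
      exact mul_le_mul_of_nonneg_left (hBq.trans hQ) (by linarith))
  rw [Nat.cast_one, one_mul, ← hJ] at h1
  exact h1.2.trans (numB hκ hν hd hq hA hB0 h1.1)

/-- The main theorem. -/
theorem main : ∃ c : ℝ, ∀ (d : ℕ) (K : Type) [Field K] [NumberField K] (L : ℕ)
    (P : ℕ → Instr) (g : ℕ → RatFunc ℚ) (S : Finset K) (w : K → ℕ → K) (B : ℝ) (q : ℕ),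
    (∀ k ≤ L, Step (fun a => RatFunc.C a) RatFunc.X g k (P k)) → g L ≠ 0 →
    (∀ x ∈ S, (minpoly ℚ x).natDegree ≤ d ∧
      (∀ k ≤ L, Step (algebraMap ℚ K) x (w x) k (P k)) ∧ w x L = 0) →
    1 ≤ B → 1 ≤ q → B ≤ (q : ℝ) ^ q →
    ((∀ x ∈ S, ∑ k ∈ Finset.range (L + 1), logHeight₁ (w x k) ≤ Module.finrank ℚ K * B) →
      (S.card : ℝ) ≤ (c * d) ^ d * (q * B ^ d)) ∧
    ∀ (n : K → ℕ) (A : ℝ), 1 ≤ A → A ≤ (q : ℝ) ^ q →
      (∀ x ∈ S, (∀ k ≤ L, logHeight₁ (w x k) ≤ Module.finrank ℚ K * B) ∧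
        1 ≤ n x ∧ Real.log (n x) ≤ A ∧
        (∀ k ≤ L, ∃ e : ℕ, IsIntegral ℤ ((n x : K) ^ e * w x k)) ∧
        ∀ k ≤ L, ∀ i j, P k = Instr.div i j → ∃ e : ℕ, IsIntegral ℤ ((n x : K) ^ e * (w x j)⁻¹)) →
      (S.card : ℝ) ≤ c ^ d * (A ^ (d - 1) * (q ^ 2 * B + A)) := by
  obtain ⟨κ, ν, hκ, hν, hfin⟩ := fin
  have hκ0 : 0 < κ := by linarith
  refine ⟨18 * (ν + 1) * κ, ?_⟩
  intro d K _ _ L P g S w B q hg hgL hS hB hq hBq
  have hB0 : 0 < B := by linarith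
  have hqr : (1 : ℝ) ≤ q := by exact_mod_cast hq
  rcases Nat.eq_zero_or_pos S.card with h0 | hcard
  · rw [h0, Nat.cast_zero]
    refine ⟨fun _ => by positivity, fun n A hA _ _ => by positivity⟩
  have hdeg : ∀ x ∈ S, (minpoly ℚ x).natDegree ≤ d := fun x hx => (hS x hx).1
  obtain ⟨y, hy⟩ := Finset.card_pos.1 hcard
  have hd : 1 ≤ d := by
    have h1 := minpoly.natDegree_pos (A := ℚ) (x := y) (Algebra.IsIntegral.isIntegral y)
    exact h1.trans_le (hdeg y hy)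
  constructor
  · intro hwB
    refine (partA hκ hfin hd hg hgL hB hq hBq hcard hdeg (fun x hx => (hS x hx).2.1)
      (fun x hx => (hS x hx).2.2) hwB).trans ?_
    refine mul_le_mul_of_nonneg_right (pow_le_pow_left₀ (by positivity) ?_ _) (by positivity)
    refine mul_le_mul_of_nonneg_right ?_ (Nat.cast_nonneg _)
    nlinarith
  · intro n A hA hAq hn
    exact partB hκ hν hfin hd hg hgL hB hq hBq hcard hdeg (fun x hx => (hS x hx).2.1)
      (fun x hx => (hS x hx).2.2) (fun x hx => (hn x hx).1) hA hAq fun x hx => (hn x hx).2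

end Pool.Agent.TH777.LE
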