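import Mathlib

set_option autoImplicit false

/-!
# The numerical conclusion
-/

namespace Pool.Agent.TH777.LE

/-- the number of the functions -/
theorem num1 {d n : ℕ} (hd : 1 ≤ d) (hn : 1 ≤ n) {Θ A T s ρ : ℝ} (hA : 1 ≤ A) (hT : A ≤ T)
    (hΘ : 4 * A ≤ Θ) (hs0 : 0 < s) (hρ : 1 ≤ ρ) (hs : s ≤ ρ ^ d * A ^ d)
    (h : Θ * ((n : ℝ) ^ 2 / (2 * s) - 3 / 2 * n) ≤
      Real.log n.factorial + 4 * (n * T) + n / s * (n * A)) :
    (n : ℝ) ≤ (4 * (12 + ρ) * ρ) ^ d * (A ^ (d - 1) * T) := by
  have hd1 : (1 : ℝ) ≤ d := by exact_mod_cast hd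
  have hn1 : (1 : ℝ) ≤ n := by exact_mod_cast hn
  have hn0 : (0 : ℝ) < n := by linarith
  have hA0 : 0 < A := by linarith
  have hT1 : 1 ≤ T := hA.trans hT
  have hT0 : 0 < T := by linarith
  have hρ0 : 0 < ρ := by linarith
  have hΘ0 : 0 < Θ := by linarith
  have hlog2 := Real.log_two_lt_d9
  have h6 : Real.log n.factorial ≤ n * Real.log n := by
    rw [← Real.log_pow]
    refine Real.log_le_log (by exact_mod_cast n.factorial_pos) ?_
    exact_mod_cast Nat.factorial_le_pow n
  have hln : 0 ≤ Real.log (n : ℝ) := Real.log_nonneg hn1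
  have h7 : (n : ℝ) * (Θ * n) ≤ n * (4 * s * (Real.log n + 4 * T) + 6 * s * Θ) := by
    have h10 : Θ * ((n : ℝ) ^ 2 / (2 * s) - 3 / 2 * n) ≤
        n * Real.log n + 4 * (n * T) + n / s * (n * A) := by linarith
    have h11 := mul_le_mul_of_nonneg_left h10 (by positivity : (0 : ℝ) ≤ 4 * s)
    have e2 : 4 * s * (Θ * ((n : ℝ) ^ 2 / (2 * s) - 3 / 2 * n)) =
        2 * (n * (Θ * n)) - 6 * s * Θ * n := by
      field_simp
      ring
    have e3 : 4 * s * (n * Real.log n + 4 * (n * T) + n / s * (n * A)) =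
        n * (4 * s * (Real.log n + 4 * T)) + n * n * (4 * A) := by
      field_simp
    rw [e2, e3] at h11
    have h12 : (n : ℝ) * n * (4 * A) ≤ n * n * Θ := mul_le_mul_of_nonneg_left hΘ (by positivity)
    have e4 : (n : ℝ) * (4 * s * (Real.log n + 4 * T) + 6 * s * Θ) =
        n * (4 * s * (Real.log n + 4 * T)) + 6 * s * Θ * n := by ring
    rw [e4]
    linarith
  have h8 : Θ * n ≤ 4 * s * (Real.log n + 4 * T) + 6 * s * Θ := le_of_mul_le_mul_left h7 hn0
  obtain ⟨R, hR⟩ : ∃ R : ℝ, R = ρ ^ d * A ^ (d - 1) := ⟨_, rfl⟩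
  have hR0 : 0 < R := by
    rw [hR]
    positivity
  have hsR : s ≤ A * R := by
    have e1 : A ^ d = A * A ^ (d - 1) := by
      rw [← pow_succ']
      congr 1
      omega
    calc s ≤ ρ ^ d * A ^ d := hs
      _ = _ := by
        rw [hR, e1]
        ring
  have h9 : (n : ℝ) ≤ R * (Real.log n + 10 * T) := by
    have h10 : Θ * n ≤ Θ * (R * (Real.log n + 10 * T)) := by
      have h11 : 4 * s * (Real.log n + 4 * T) ≤ Θ * (R * (Real.log n + 4 * T)) := by
        calc 4 * s * (Real.log n + 4 * T) ≤ 4 * (A * R) * (Real.log n + 4 * T) :=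
              mul_le_mul_of_nonneg_right (by linarith) (by linarith)
          _ = 4 * A * (R * (Real.log n + 4 * T)) := by ring
          _ ≤ Θ * (R * (Real.log n + 4 * T)) :=
              mul_le_mul_of_nonneg_right hΘ (mul_nonneg hR0.le (by linarith))
      have h14 : 6 * s * Θ ≤ Θ * (R * (6 * T)) := by
        have h15 : A * R ≤ T * R := mul_le_mul_of_nonneg_right hT hR0.le
        calc 6 * s * Θ = Θ * (6 * s) := by ring
          _ ≤ Θ * (6 * (T * R)) := mul_le_mul_of_nonneg_left (by linarith) hΘ0.le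
          _ = _ := by ring
      have e5 : Θ * (R * (Real.log n + 10 * T)) = Θ * (R * (Real.log n + 4 * T)) +
          Θ * (R * (6 * T)) := by
        ring
      rw [e5]
      linarith
    exact le_of_mul_le_mul_left h10 hΘ0
  have h10 : Real.log n ≤ n / (2 * R) + Real.log (2 * R) := by
    have h10 := Real.log_le_sub_one_of_pos (x := (n : ℝ) / (2 * R)) (by positivity)
    rw [Real.log_div hn0.ne' (by positivity)] at h10
    linarith
  have h11 : (n : ℝ) ≤ 2 * R * (Real.log (2 * R) + 10 * T) := by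
    have h11 : R * Real.log n ≤ n / 2 + R * Real.log (2 * R) := by
      have h12 := mul_le_mul_of_nonneg_left h10 hR0.le
      have e1 : R * ((n : ℝ) / (2 * R) + Real.log (2 * R)) = n / 2 + R * Real.log (2 * R) := by
        field_simp
      rw [e1] at h12
      exact h12
    have e2 : R * (Real.log n + 10 * T) = R * Real.log n + R * (10 * T) := by ring
    rw [e2] at h9
    have e3 : 2 * R * (Real.log (2 * R) + 10 * T) =
        2 * (R * Real.log (2 * R)) + 2 * (R * (10 * T)) := by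
      ring
    rw [e3]
    linarith
  have hlR : Real.log (2 * R) ≤ d * (2 + ρ) * T := by
    have e1 : Real.log (2 * R) = Real.log 2 + (d * Real.log ρ + ((d - 1 : ℕ) : ℝ) * Real.log A) := by
      rw [hR, Real.log_mul (by norm_num) (by positivity), Real.log_mul (by positivity)
        (by positivity), Real.log_pow, Real.log_pow]
    have h12 : Real.log A ≤ T := by
      have := Real.log_le_sub_one_of_pos hA0
      linarith
    have h13 : ((d - 1 : ℕ) : ℝ) * Real.log A ≤ d * T := by
      refine mul_le_mul ?_ h12 (Real.log_nonneg hA) (by linarith)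
      exact_mod_cast Nat.sub_le d 1
    have h15 : Real.log ρ ≤ ρ := by
      have := Real.log_le_sub_one_of_pos hρ0
      linarith
    have h16 : (d : ℝ) * Real.log ρ ≤ d * ρ * T := by
      calc (d : ℝ) * Real.log ρ ≤ d * ρ := mul_le_mul_of_nonneg_left h15 (by linarith)
        _ = d * ρ * 1 := (mul_one _).symm
        _ ≤ d * ρ * T := mul_le_mul_of_nonneg_left hT1 (by positivity)
    have h17 : Real.log 2 ≤ d * T := by
      have : 1 * 1 ≤ (d : ℝ) * T := mul_le_mul hd1 hT1 (by norm_num) (by linarith)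
      linarith
    rw [e1]
    have e5 : (d : ℝ) * (2 + ρ) * T = d * T + (d * ρ * T + d * T) := by ring
    rw [e5]
    linarith
  have h12 : Real.log (2 * R) + 10 * T ≤ d * (12 + ρ) * T := by
    have h13 : 10 * T ≤ d * (10 * T) := by
      calc 10 * T = 1 * (10 * T) := (one_mul _).symm
        _ ≤ d * (10 * T) := mul_le_mul_of_nonneg_right hd1 (by linarith)
    have e5 : (d : ℝ) * (12 + ρ) * T = d * (2 + ρ) * T + d * (10 * T) := by ring
    rw [e5]
    linarith
  have h13 : (2 : ℝ) * d * (12 + ρ) ≤ (4 * (12 + ρ)) ^ d := by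
    have h14 : (d : ℝ) ≤ 2 ^ d := by exact_mod_cast (Nat.lt_two_pow_self (n := d)).le
    have h15 : 2 * (12 + ρ) ≤ (2 * (12 + ρ)) ^ d := le_self_pow₀ (by linarith) (by omega)
    have e5 : (4 * (12 + ρ)) ^ d = 2 ^ d * (2 * (12 + ρ)) ^ d := by
      rw [← mul_pow]
      ring
    rw [e5]
    calc (2 : ℝ) * d * (12 + ρ) = d * (2 * (12 + ρ)) := by ring
      _ ≤ 2 ^ d * (2 * (12 + ρ)) ^ d := mul_le_mul h14 h15 (by positivity) (by positivity)
  calc (n : ℝ) ≤ 2 * R * (Real.log (2 * R) + 10 * T) := h11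
    _ ≤ 2 * R * (d * (12 + ρ) * T) := mul_le_mul_of_nonneg_left h12 (by positivity)
    _ = (2 * d * (12 + ρ)) * (ρ ^ d * (A ^ (d - 1) * T)) := by
        rw [hR]
        ring
    _ ≤ (4 * (12 + ρ)) ^ d * (ρ ^ d * (A ^ (d - 1) * T)) :=
        mul_le_mul_of_nonneg_right h13 (by positivity)
    _ = _ := by
        rw [← mul_assoc, ← mul_pow]

/-- from the functions to the points -/
theorem num2 {C : ℝ} (hC : 1 ≤ C) {d s n q : ℕ} (hd : 1 ≤ d) (hs : 1 ≤ s) (hn : 1 ≤ n)
    (hq : 3 ≤ q) {A T : ℝ} (hA : 1 ≤ A) (hAq : A ≤ (q : ℝ) ^ q) (hT : 1 ≤ T)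
    (hTq : T ≤ ((Nat.log q s : ℝ) + 1) * (q : ℝ) ^ (2 * q))
    (hnC : (n : ℝ) ≤ C ^ d * (A ^ (d - 1) * T))
    (h : s * q ^ (Nat.log q s) ≤ n * (q + 1) ^ (Nat.log q s)) :
    (Nat.log q s : ℝ) ≤ 3 * (Real.log C + 5 / 2) * d * q ∧
      (s : ℝ) ≤ (C * Real.exp (3 * (Real.log C + 5 / 2))) ^ d * (A ^ (d - 1) * T) := by
  obtain ⟨j, hj⟩ : ∃ j, j = Nat.log q s := ⟨_, rfl⟩
  rw [← hj] at h hTq ⊢
  have hd1 : (1 : ℝ) ≤ d := by exact_mod_cast hd
  have hq3 : (3 : ℝ) ≤ q := by exact_mod_cast hq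
  have hq0 : (0 : ℝ) < q := by linarith
  have hs0 : (0 : ℝ) < s := by exact_mod_cast hs
  have hn1 : (1 : ℝ) ≤ n := by exact_mod_cast hn
  have hn0 : (0 : ℝ) < n := by linarith
  have hA0 : 0 < A := by linarith
  have hT0 : 0 < T := by linarith
  have hC0 : 0 < C := by linarith
  have hj0 : (0 : ℝ) ≤ j := Nat.cast_nonneg _
  have hlogq : 1 ≤ Real.log q := by
    rw [Real.le_log_iff_exp_le hq0]
    have := Real.exp_one_lt_d9
    linarith
  have hlogC : 0 ≤ Real.log C := Real.log_nonneg hC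
  have hr : (s : ℝ) * (q : ℝ) ^ j ≤ n * ((q : ℝ) + 1) ^ j := by exact_mod_cast h
  have hu : ((q : ℝ) + 1) = q * (1 + 1 / q) := by
    field_simp
  have hs2 : (s : ℝ) ≤ n * (1 + 1 / (q : ℝ)) ^ j := by
    have h1 : (s : ℝ) * (q : ℝ) ^ j ≤ (n * (1 + 1 / (q : ℝ)) ^ j) * (q : ℝ) ^ j := by
      calc (s : ℝ) * (q : ℝ) ^ j ≤ n * ((q : ℝ) + 1) ^ j := hr
        _ = (n * (1 + 1 / (q : ℝ)) ^ j) * (q : ℝ) ^ j := by
            rw [hu, mul_pow]
            ring
    exact le_of_mul_le_mul_right h1 (by positivity)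
  have hexp : (1 + 1 / (q : ℝ)) ^ j ≤ Real.exp (j / q) := by
    calc (1 + 1 / (q : ℝ)) ^ j ≤ (Real.exp (1 / q)) ^ j := by
          refine pow_le_pow_left₀ (by positivity) ?_ _
          have := Real.add_one_le_exp (1 / (q : ℝ))
          linarith
      _ = Real.exp (j / q) := by
          rw [← Real.exp_nat_mul]
          congr 1
          ring
  have hs3 : (s : ℝ) ≤ n * Real.exp (j / q) :=
    hs2.trans (mul_le_mul_of_nonneg_left hexp hn0.le)
  -- bound for `j`
  have hqj : (q : ℝ) ^ j ≤ s := by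
    have : q ^ j ≤ s := by
      rw [hj]
      exact Nat.pow_log_le_self q (by omega)
    exact_mod_cast this
  have h1 : (j : ℝ) * Real.log q ≤ Real.log n + j / q := by
    have h2 : Real.log ((q : ℝ) ^ j) ≤ Real.log (n * Real.exp (j / q)) :=
      Real.log_le_log (by positivity) (hqj.trans hs3)
    rw [Real.log_pow, Real.log_mul (by positivity) (by positivity), Real.log_exp] at h2
    exact h2
  have hjj : (j : ℝ) ≤ j * Real.log q := by
    calc (j : ℝ) = j * 1 := (mul_one _).symm
      _ ≤ j * Real.log q := mul_le_mul_of_nonneg_left hlogq hj0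
  have h2 : (j : ℝ) / q ≤ 1 / 3 * (j * Real.log q) := by
    have h3 : (j : ℝ) / q ≤ j / 3 := by
      exact div_le_div_of_nonneg_left (Nat.cast_nonneg _) (by norm_num) hq3
    linarith
  have hlA : Real.log A ≤ q * Real.log q := by
    have h3 := Real.log_le_log hA0 hAq
    rwa [Real.log_pow] at h3
  have hlA0 : 0 ≤ Real.log A := Real.log_nonneg hA
  have hlj : Real.log ((j : ℝ) + 1) ≤ 1 / 3 * j + 1 / 2 := by
    have h3 := Real.log_le_sub_one_of_pos (x := ((j : ℝ) + 1) / 3) (by positivity)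
    rw [Real.log_div (by positivity) (by norm_num)] at h3
    have h4 : Real.log 3 ≤ 7 / 6 := by
      have h5 : Real.log 3 = Real.log (3 / 2) + Real.log 2 := by
        rw [← Real.log_mul (by norm_num) (by norm_num)]
        norm_num
      have h6 := Real.log_le_sub_one_of_pos (x := (3 / 2 : ℝ) / (3 / 2)) (by norm_num)
      have h7 : Real.log (9 / 4) ≤ 15 / 16 := by
        have h8 : Real.log (9 / 4) = Real.log 2 + Real.log (9 / 8) := by
          rw [← Real.log_mul (by norm_num) (by norm_num)]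
          norm_num
        have h9 := Real.log_le_sub_one_of_pos (x := (9 / 8 : ℝ)) (by norm_num)
        have := Real.log_two_lt_d9
        linarith
      have h10 : Real.log (9 / 4) = 2 * Real.log (3 / 2) := by
        rw [show (9 / 4 : ℝ) = (3 / 2) ^ 2 by norm_num, Real.log_pow]
        norm_num
      have := Real.log_two_lt_d9
      linarith
    linarith
  have hlT : Real.log T ≤ (1 / 3 * j + 1 / 2) + 2 * (q * Real.log q) := by
    have h3 := Real.log_le_log hT0 hTq
    rw [Real.log_mul (by positivity) (by positivity), Real.log_pow] at h3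
    push_cast at h3
    linarith
  have hqq : 0 ≤ (q : ℝ) * Real.log q := by positivity
  have h8 : 1 ≤ (q : ℝ) * Real.log q := by
    have : (1 : ℝ) * 1 ≤ q * Real.log q :=
      mul_le_mul (by linarith) hlogq (by norm_num) hq0.le
    linarith
  have h3 : Real.log n ≤ d * Real.log C + 2 * d * (q * Real.log q) + (1 / 3 * j + 1 / 2) := by
    have h5 := Real.log_le_log hn0 hnC
    rw [Real.log_mul (by positivity) (by positivity), Real.log_mul (by positivity) (by positivity),
      Real.log_pow, Real.log_pow] at h5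
    have h6 : ((d - 1 : ℕ) : ℝ) * Real.log A ≤ (d - 1) * (q * Real.log q) := by
      rw [Nat.cast_sub hd]
      push_cast
      exact mul_le_mul_of_nonneg_left hlA (by linarith)
    have h7 : (1 : ℝ) * (q * Real.log q) ≤ d * (q * Real.log q) :=
      mul_le_mul_of_nonneg_right hd1 hqq
    linarith
  have h4 : (j : ℝ) * Real.log q ≤ (3 * (Real.log C + 5 / 2) * d * q) * Real.log q := by
    have h5 : (j : ℝ) * Real.log q ≤
        3 * (d * Real.log C + 2 * d * (q * Real.log q) + 1 / 2) := by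
      linarith
    refine h5.trans ?_
    have h6 : (d : ℝ) * Real.log C ≤ (d * Real.log C) * (q * Real.log q) := by
      calc (d : ℝ) * Real.log C = (d * Real.log C) * 1 := (mul_one _).symm
        _ ≤ _ := mul_le_mul_of_nonneg_left h8 (by positivity)
    have h7 : (1 : ℝ) / 2 ≤ 1 / 2 * d * (q * Real.log q) := by
      have : (1 : ℝ) * 1 ≤ d * (q * Real.log q) := mul_le_mul hd1 h8 (by norm_num) (by linarith)
      linarith
    calc 3 * (d * Real.log C + 2 * d * (q * Real.log q) + 1 / 2) ≤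
        3 * ((d * Real.log C) * (q * Real.log q) + 2 * d * (q * Real.log q) +
          1 / 2 * d * (q * Real.log q)) := by
          linarith
      _ = _ := by ring
  have h5 : (j : ℝ) ≤ 3 * (Real.log C + 5 / 2) * d * q :=
    le_of_mul_le_mul_right h4 (by linarith)
  refine ⟨h5, ?_⟩
  have h6 : (j : ℝ) / q ≤ d * (3 * (Real.log C + 5 / 2)) := by
    rw [div_le_iff₀ hq0]
    linarith
  calc (s : ℝ) ≤ n * Real.exp (j / q) := hs3
    _ ≤ (C ^ d * (A ^ (d - 1) * T)) * Real.exp (d * (3 * (Real.log C + 5 / 2))) :=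
        mul_le_mul hnC (Real.exp_le_exp.2 h6) (Real.exp_pos _).le (by positivity)
    _ = _ := by
        rw [Real.exp_nat_mul, mul_pow]
        ring

end Pool.Agent.TH777.LE
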