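import Pool.Agent.TH777.LE.Core
import Pool.Agent.TH777.LE.Num
import Pool.Agent.TH777.LD.Num

set_option autoImplicit false

/-!
# The bound for circuits with divisions and roots of bounded degree
-/

namespace Pool.Agent.TH777.LE

open Polynomial Height Height.AdmissibleAbsValues

open Pool.Agent.TH777.LC (Instr Step)

open Pool.Agent.TH777.LD (int_eq ramif primes ht_nat integral_le_one)

/-- the results lie in the field generated by the point -/
theorem mem_prog {K : Type} [Field K] [NumberField K] {L : ℕ} {P : ℕ → Instr} {x : K} {w : ℕ → K}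
    (hw : ∀ k ≤ L, Step (algebraMap ℚ K) x w k (P k)) :
    ∀ k ≤ L, w k ∈ IntermediateField.adjoin ℚ {x} := by
  intro k
  induction k using Nat.strong_induction_on with
  | _ k ih =>
    intro hk
    have h1 := hw k hk
    cases hP : P k with
    | var =>
      rw [hP] at h1
      simp only [Step] at h1
      rw [h1]
      exact IntermediateField.mem_adjoin_simple_self ℚ x
    | const a =>
      rw [hP] at h1
      simp only [Step] at h1
      rw [h1]
      exact IntermediateField.algebraMap_mem _ a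
    | add i j =>
      rw [hP] at h1
      obtain ⟨hi, hj, h1⟩ := h1
      rw [h1]
      exact add_mem (ih i hi (by omega)) (ih j hj (by omega))
    | sub i j =>
      rw [hP] at h1
      obtain ⟨hi, hj, h1⟩ := h1
      rw [h1]
      exact sub_mem (ih i hi (by omega)) (ih j hj (by omega))
    | mul i j =>
      rw [hP] at h1
      obtain ⟨hi, hj, h1⟩ := h1
      rw [h1]
      exact mul_mem (ih i hi (by omega)) (ih j hj (by omega))
    | div i j =>
      rw [hP] at h1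
      obtain ⟨hi, hj, _, h1⟩ := h1
      rw [h1]
      exact div_mem (ih i hi (by omega)) (ih j hj (by omega))

/-- an integral equation of degree at most `d` -/
theorem alg_eq {K : Type} [Field K] [NumberField K] {x y : K} {d : ℕ}
    (hx : (minpoly ℚ x).natDegree ≤ d) (hy : y ∈ IntermediateField.adjoin ℚ {x}) :
    ∃ h : ℤ[X], h ≠ 0 ∧ h.natDegree ≤ d ∧ aeval y h = 0 := by
  have hint : IsIntegral ℚ x := Algebra.IsIntegral.isIntegral x
  have h1 : y ∈ (IntermediateField.adjoin ℚ {x}).toSubalgebra := hy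
  rw [IntermediateField.adjoin_simple_toSubalgebra_of_isAlgebraic hint.isAlgebraic,
    Algebra.adjoin_singleton_eq_range_aeval] at h1
  obtain ⟨f, hf⟩ := h1
  obtain ⟨h, h2, h3, h4⟩ := int_eq hx f
  refine ⟨h, h2, h3, ?_⟩
  have h5 : aeval x f = y := hf
  rwa [h5] at h4

/-- the inverse of a positive integer at a nonarchimedean place -/
theorem nat_ram {K : Type} [Field K] [CharZero K] {v : AbsoluteValue K ℝ} (hna : IsNonarchimedean v)
    {n : ℕ} (hn : 1 ≤ n) {p : ℕ} (hp : p.Prime) (hvp : v (p : K) < 1) (h1 : 1 < v ((n : K)⁻¹)) :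
    -Real.log (v (p : K)) ≤ ((1 : ℕ) : ℝ) * Real.log (v ((n : K)⁻¹)) := by
  have hn0 : n ≠ 0 := by omega
  refine ramif (d := 1) hna hp hvp h1 (h := C (n : ℤ) * X - 1) ?_ ?_ ?_
  · intro h0
    have h4 := congrArg (fun w : ℤ[X] => w.coeff 1) h0
    simp only [coeff_sub, coeff_C_mul, coeff_X_one, mul_one, coeff_zero] at h4
    rw [coeff_one, if_neg (by norm_num), sub_zero] at h4
    exact hn0 (by exact_mod_cast h4)
  · refine (natDegree_sub_le _ _).trans (max_le ?_ ?_)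
    · exact (natDegree_C_mul_le _ _).trans natDegree_X_le
    · rw [natDegree_one]
      exact Nat.zero_le _
  · rw [map_sub, map_mul, aeval_C, aeval_X, map_one]
    simp only [algebraMap_int_eq, map_natCast]
    rw [mul_inv_cancel₀ (by exact_mod_cast hn0), sub_self]

/-- the property of the constants in `fin` -/
def Good (κ ν : ℝ) : Prop := ∀ (d : ℕ) (K : Type) [Field K] [NumberField K] (L : ℕ)
    (P : ℕ → Instr) (g : ℕ → RatFunc ℚ) (S : Finset K) (w : K → ℕ → K) (q m r : ℕ)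
    (z : K → ℕ → K) (A B : ℝ),
    (∀ k ≤ L, Step (fun a => RatFunc.C a) RatFunc.X g k (P k)) → g L ≠ 0 →
    1 ≤ S.card → 3 ≤ q → (∀ x ∈ S, (minpoly ℚ x).natDegree ≤ d) →
    (∀ x ∈ S, ∀ k ≤ L, Step (algebraMap ℚ K) x (w x) k (P k)) → (∀ x ∈ S, w x L = 0) →
    (∀ x ∈ S, ∀ G : Finset ℕ, G.card ≤ Nat.log q S.card + 1 → (∀ k ∈ G, k ≤ L) →
      ∑ k ∈ G, logHeight₁ (w x k) ≤ Module.finrank ℚ K * B) →
    (∀ x ∈ S, ∀ v ∈ nonarchAbsVal (K := K), (∀ k < m, v (z x k) ≤ 1) →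
      (∀ k ≤ L, v (w x k) ≤ 1) ∧ ∀ k ≤ L, ∀ i i', P k = Instr.div i i' → v (w x i')⁻¹ ≤ 1) →
    (∀ x ∈ S, ∀ v ∈ nonarchAbsVal (K := K), ∀ p : ℕ, p.Prime → v (p : K) < 1 →
      ∀ k < m, 1 < v (z x k) → -Real.log (v (p : K)) ≤ r * Real.log (v (z x k))) →
    (∀ x ∈ S, ∑ k ∈ Finset.range m, logHeight₁ (z x k) ≤ Module.finrank ℚ K * A) →
    1 ≤ r * A → r * A ≤ (q : ℝ) ^ q → 0 ≤ B →
    B ≤ ((Nat.log q S.card : ℝ) + 1) * (q : ℝ) ^ q →
    (Nat.log q S.card : ℝ) ≤ ν * d * q ∧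
      (S.card : ℝ) ≤ κ ^ d * ((r * A) ^ (d - 1) * (q * B + r * A))

theorem fin : ∃ κ ν : ℝ, 1 ≤ κ ∧ 0 ≤ ν ∧ Good κ ν := by
  obtain ⟨c, hc, hprimes⟩ := primes
  have hc1 : (1 : ℝ) ≤ c := by exact_mod_cast hc
  obtain ⟨ρ, hρ⟩ : ∃ ρ : ℝ, ρ = 10 * c := ⟨_, rfl⟩
  have hρ1 : 1 ≤ ρ := by
    rw [hρ]
    linarith
  obtain ⟨C, hC⟩ : ∃ C : ℝ, C = 4 * (12 + ρ) * ρ := ⟨_, rfl⟩
  have hC1 : 1 ≤ C := by
    rw [hC]
    nlinarith
  have hlC := Real.log_nonneg hC1
  have hE : 1 ≤ Real.exp (3 * (Real.log C + 5 / 2)) := by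
    refine Real.one_le_exp ?_
    positivity
  refine ⟨C * Real.exp (3 * (Real.log C + 5 / 2)), 3 * (Real.log C + 5 / 2), ?_, by positivity, ?_⟩
  · nlinarith
  intro d K _ _ L P g S w q m r z A₀ B hg hgL hcard hq hdeg hw hwL hB hz1 hz2 hz3 hA hAq hB0 hBq
  obtain ⟨A, hAd⟩ : ∃ A : ℝ, A = r * A₀ := ⟨_, rfl⟩
  obtain ⟨y, hy⟩ := Finset.card_pos.1 hcard
  have hd : 1 ≤ d := by
    have h1 := minpoly.natDegree_pos (A := ℚ) (x := y) (Algebra.IsIntegral.isIntegral y)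
    exact h1.trans_le (hdeg y hy)
  obtain ⟨g', hg', hgL'⟩ := base (K := K) hg hgL
  rw [← hAd] at hA hAq ⊢
  obtain ⟨b, hb⟩ : ∃ b : ℕ, b = ⌈4 * A⌉₊ := ⟨_, rfl⟩
  have hb1 : 1 ≤ b := by
    rw [hb, Nat.one_le_ceil_iff]
    linarith
  have hb2 : 4 * A ≤ b := by
    rw [hb]
    exact Nat.le_ceil _
  have hb3 : (b : ℝ) ≤ 5 * A := by
    have h1 := Nat.ceil_lt_add_one (a := 4 * A) (by linarith)
    rw [← hb] at h1
    linarith
  obtain ⟨PP, hPP, h1⟩ := hprimes b hb1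
  obtain ⟨s, hs⟩ : ∃ s : ℕ, s = d * (c * b) ^ d := ⟨_, rfl⟩
  have hs1 : 1 ≤ s := by
    rw [hs]
    exact Nat.mul_pos hd (pow_pos (Nat.mul_pos hc hb1) _)
  have hsle : (s : ℝ) ≤ ρ ^ d * A ^ d := by
    have h2 : (d : ℝ) ≤ 2 ^ d := by exact_mod_cast (Nat.lt_two_pow_self (n := d)).le
    have h3 : (c : ℝ) * b ≤ 5 * c * A := by
      calc (c : ℝ) * b ≤ c * (5 * A) := mul_le_mul_of_nonneg_left hb3 (by linarith)
        _ = _ := by ring
    rw [hs]
    push_cast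
    calc (d : ℝ) * (c * b) ^ d ≤ 2 ^ d * (5 * c * A) ^ d :=
          mul_le_mul h2 (pow_le_pow_left₀ (by positivity) h3 _) (by positivity) (by positivity)
      _ = _ := by
        rw [← mul_pow, ← mul_pow, hρ]
        congr 1
        ring
  obtain ⟨n, hn, hineq, hf⟩ := core hg' hgL' hcard hd (by omega : 2 ≤ q) hdeg hw hwL hB hz1 hz2
    hz3 (PP := PP) (fun p hp => (hPP p hp).1) hs1 (fun p hp => by
      rw [hs]
      exact Nat.mul_le_mul_left _ (Nat.pow_le_pow_left (hPP p hp).2 _))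
  have hq3 : (3 : ℝ) ≤ q := by exact_mod_cast hq
  have hq0 : (0 : ℝ) < q := by linarith
  obtain ⟨T, hT⟩ : ∃ T : ℝ, T = q * B + A := ⟨_, rfl⟩
  have hqB : 0 ≤ (q : ℝ) * B := by positivity
  have hAT : A ≤ T := by
    rw [hT]
    linarith
  have hs0 : (0 : ℝ) < s := by exact_mod_cast hs1
  have hn1 := num1 hd hn hA hAT (hb2.trans h1) hs0 hρ1 hsle (by
    refine hineq.trans ?_
    have e1 : (n : ℝ) * r / s * (n * A₀) = n / s * (n * A) := by
      rw [hAd]
      ring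
    rw [e1]
    have h2 : 4 * (q : ℝ) * (n * B) ≤ 4 * (n * T) := by
      have h3 : (q : ℝ) * B ≤ T := by
        rw [hT]
        linarith
      calc 4 * (q : ℝ) * (n * B) = 4 * (n * (q * B)) := by ring
        _ ≤ _ := mul_le_mul_of_nonneg_left (mul_le_mul_of_nonneg_left h3 (Nat.cast_nonneg _))
          (by norm_num)
    linarith)
  rw [← hC] at hn1
  have hTq : T ≤ ((Nat.log q S.card : ℝ) + 1) * (q : ℝ) ^ (2 * q) := by
    obtain ⟨J, hJ⟩ : ∃ J : ℝ, J = (Nat.log q S.card : ℝ) + 1 := ⟨_, rfl⟩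
    have hJ1 : 1 ≤ J := by
      rw [hJ]
      have : (0 : ℝ) ≤ (Nat.log q S.card : ℝ) := Nat.cast_nonneg _
      linarith
    rw [← hJ] at hBq ⊢
    have h2 : (q : ℝ) + 1 ≤ (q : ℝ) ^ q := by
      calc (q : ℝ) + 1 ≤ (q : ℝ) ^ 2 := by nlinarith
        _ ≤ (q : ℝ) ^ q := pow_le_pow_right₀ (by linarith) (by omega)
    have hqq : 0 < (q : ℝ) ^ q := by positivity
    have h3 : (q : ℝ) * B ≤ q * (J * (q : ℝ) ^ q) := mul_le_mul_of_nonneg_left hBq hq0.le
    have h4 : A ≤ J * (q : ℝ) ^ q := by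
      calc A ≤ 1 * (q : ℝ) ^ q := by linarith
        _ ≤ J * (q : ℝ) ^ q := mul_le_mul_of_nonneg_right hJ1 hqq.le
    calc T ≤ q * (J * (q : ℝ) ^ q) + J * (q : ℝ) ^ q := by
          rw [hT]
          linarith
      _ = J * ((q + 1) * (q : ℝ) ^ q) := by ring
      _ ≤ J * ((q : ℝ) ^ q * (q : ℝ) ^ q) :=
          mul_le_mul_of_nonneg_left (mul_le_mul_of_nonneg_right h2 hqq.le) (by linarith)
      _ = _ := by rw [two_mul, pow_add]
  have h2 := num2 hC1 hd hcard hn hq hA hAq (hA.trans hAT) hTq hn1 hf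
  rw [hT] at h2
  exact h2

end Pool.Agent.TH777.LE
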